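import Mathlib

/-!
The local lemma for random permutations (lopsided form), with set events `σ(b) = a`.
-/

set_option autoImplicit false

open Finset

namespace Pool.Agent.R767.SS

section inv

variable {V : Type} [DecidableEq V]

/-- an injection of `F` into its complement extends to an involution -/
theorem exists_involution (F : Finset V) (φ : V → V) (hφ : Set.InjOn φ F)
    (hF : ∀ v ∈ F, φ v ∉ F) :
    ∃ τ : Equiv.Perm V, (∀ v ∈ F, τ v = φ v) ∧ (∀ v ∈ F, τ (φ v) = v) ∧
      (∀ v, v ∉ F → v ∉ F.image φ → τ v = v) ∧ ∀ v, τ (τ v) = v := by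
  classical
  set g : V → V := fun v => if v ∈ F then φ v else if h : ∃ u ∈ F, φ u = v then h.choose else v
    with hg
  have g1 : ∀ v ∈ F, g v = φ v := fun v hv => by simp [hg, hv]
  have g2 : ∀ v ∈ F, g (φ v) = v := by
    intro v hv
    have h1 : ∃ u ∈ F, φ u = φ v := ⟨v, hv, rfl⟩
    have h2 : g (φ v) = h1.choose := by
      simp only [hg]
      rw [if_neg (hF v hv), dif_pos h1]
    rw [h2]
    exact hφ h1.choose_spec.1 hv h1.choose_spec.2
  have g3 : ∀ v, v ∉ F → v ∉ F.image φ → g v = v := by
    intro v h1 h2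
    have h3 : ¬ ∃ u ∈ F, φ u = v := by
      rintro ⟨u, hu, hu2⟩
      exact h2 (mem_image.2 ⟨u, hu, hu2⟩)
    simp only [hg]
    rw [if_neg h1, dif_neg h3]
  have hinv : Function.Involutive g := by
    intro v
    by_cases h1 : v ∈ F
    · rw [g1 v h1, g2 v h1]
    · by_cases h2 : v ∈ F.image φ
      · obtain ⟨u, hu, rfl⟩ := mem_image.1 h2
        rw [g2 u hu, g1 u hu]
      · rw [g3 v h1 h2, g3 v h1 h2]
  exact ⟨hinv.toPerm g, g1, g2, g3, hinv⟩

/-- a permutation moving `a` to `a'` and fixing everything outside `a ∪ a'` -/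
theorem exists_move (a a' : Finset V) (h : a.card = a'.card) :
    ∃ ρ : Equiv.Perm V, a.image ρ = a' ∧ ∀ v, v ∉ a → v ∉ a' → ρ v = v := by
  have hc : (a \ a').card = (a' \ a).card := by
    have h1 := card_sdiff_add_card_inter a a'
    have h2 := card_sdiff_add_card_inter a' a
    rw [inter_comm] at h2
    omega
  set e := Finset.equivOfCardEq hc with he
  set φ : V → V := fun v => if hv : v ∈ a \ a' then (e ⟨v, hv⟩ : V) else v with hφ
  have f1 : ∀ v (hv : v ∈ a \ a'), φ v = (e ⟨v, hv⟩ : V) := fun v hv => by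
    simp only [hφ]; rw [dif_pos hv]
  have f2 : ∀ v ∈ a \ a', φ v ∈ a' \ a := fun v hv => by
    rw [f1 v hv]; exact (e ⟨v, hv⟩).2
  have f3 : Set.InjOn φ ↑(a \ a') := by
    intro u hu v hv huv
    rw [f1 u hu, f1 v hv] at huv
    have := e.injective (Subtype.ext huv)
    exact congrArg Subtype.val this
  obtain ⟨ρ, r1, r2, r3, r4⟩ := exists_involution (a \ a') φ f3 (fun v hv hv2 => by
    have := f2 v hv
    rw [mem_sdiff] at this hv2
    exact this.2 hv2.1)
  refine ⟨ρ, ?_, ?_⟩
  · apply eq_of_subset_of_card_le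
    · intro w hw
      obtain ⟨v, hv, rfl⟩ := mem_image.1 hw
      by_cases h1 : v ∈ a'
      · rw [r3 v (by simp [h1]) ?_]
        · exact h1
        · intro h2
          obtain ⟨u, hu, hu2⟩ := mem_image.1 h2
          have := f2 u hu
          rw [hu2, mem_sdiff] at this
          exact this.2 hv
      · have h2 : v ∈ a \ a' := mem_sdiff.2 ⟨hv, h1⟩
        rw [r1 v h2]
        exact (mem_sdiff.1 (f2 v h2)).1
    · rw [card_image_of_injective _ ρ.injective, h]
  · intro v h1 h2
    apply r3 v (fun h3 => h1 (mem_sdiff.1 h3).1)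
    intro h3
    obtain ⟨u, hu, hu2⟩ := mem_image.1 h3
    have := f2 u hu
    rw [hu2, mem_sdiff] at this
    exact h2 this.1

end inv

section lll

theorem sum_biUnion_le {V ι : Type} [DecidableEq V] [DecidableEq ι] {p : ι → ℝ} (hp : ∀ j, 0 ≤ p j)
    (U : Finset V) (f : V → Finset ι) :
    ∑ j ∈ U.biUnion f, p j ≤ ∑ x ∈ U, ∑ j ∈ f x, p j := by
  induction U using Finset.induction_on with
  | empty => simp
  | insert x U hx ih =>
    rw [biUnion_insert, sum_insert hx]
    have h9 := sum_union_inter (s₁ := f x) (s₂ := U.biUnion f) (f := p)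
    have h10 : 0 ≤ ∑ j ∈ f x ∩ U.biUnion f, p j := sum_nonneg fun j _ => hp j
    linarith

variable {V ι : Type} [Fintype V] [DecidableEq V] (b a : ι → Finset V)

open Classical in
/-- permutations avoiding all the events of `S` -/
noncomputable def avoid (S : Finset ι) : Finset (Equiv.Perm V) :=
  univ.filter (fun σ => ∀ j ∈ S, (b j).image σ ≠ a j)

theorem mem_avoid (S : Finset ι) (σ : Equiv.Perm V) :
    σ ∈ avoid b a S ↔ ∀ j ∈ S, (b j).image σ ≠ a j := by
  simp [avoid]

open Classical in
/-- permutations avoiding all the events of `S`, but not the event `b ↦ a` -/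
noncomputable def hit (S : Finset ι) (c d : Finset V) : Finset (Equiv.Perm V) :=
  (avoid b a S).filter (fun σ => c.image σ = d)

theorem mem_hit (S : Finset ι) (c d : Finset V) (σ : Equiv.Perm V) :
    σ ∈ hit b a S c d ↔ (∀ j ∈ S, (b j).image σ ≠ a j) ∧ c.image σ = d := by
  simp [hit, mem_avoid]

theorem neg_dep (hcard : ∀ i, (b i).card = (a i).card) (i : ι) (S : Finset ι)
    (hS : ∀ j ∈ S, Disjoint (b j) (b i) ∧ Disjoint (a j) (a i)) :
    (hit b a S (b i) (a i)).card *
      (Fintype.card V).choose (b i).card ≤ (avoid b a S).card := by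
  classical
  set T : Finset V → Finset (Equiv.Perm V) :=
    fun a' => hit b a S (b i) a' with hT
  have h1 : (avoid b a S).card = ∑ a' ∈ powersetCard (b i).card univ, (T a').card := by
    rw [card_eq_sum_card_fiberwise (f := fun σ : Equiv.Perm V => (b i).image σ)
      (t := powersetCard (b i).card univ)]
    · apply sum_congr rfl
      intro a' _
      congr 1
    intro σ _
    rw [mem_coe, mem_powersetCard]
    exact ⟨subset_univ _, card_image_of_injective _ σ.injective⟩
  have h2 : ∀ a' ∈ powersetCard (b i).card (univ : Finset V), (T (a i)).card ≤ (T a').card := by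
    intro a' ha'
    rw [mem_powersetCard] at ha'
    obtain ⟨ρ, hρ1, hρ2⟩ := exists_move (a i) a' (by rw [ha'.2, hcard])
    apply card_le_card_of_injOn (fun σ => ρ * σ)
    · intro σ hσ
      rw [mem_coe, hT, mem_hit] at hσ
      rw [mem_coe, hT, mem_hit]
      obtain ⟨h3, h4⟩ := hσ
      have h5 : (b i).image (ρ * σ) = a' := by
        rw [← hρ1, ← h4, image_image]
        rfl
      refine ⟨?_, h5⟩
      intro j hj h6
      apply h3 j hj
      obtain ⟨d1, d2⟩ := hS j hj
      have h7 : ∀ u ∈ b j, ρ (σ u) = σ u := by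
        intro u hu
        have h8 : u ∉ b i := fun h => (disjoint_left.1 d1) hu h
        have h9 : σ u ∉ a i := by
          intro h
          rw [← h4] at h
          obtain ⟨v, hv, hv2⟩ := mem_image.1 h
          exact h8 (σ.injective hv2 ▸ hv)
        have h10 : ρ (σ u) ∉ a' := by
          intro h
          rw [← h5] at h
          obtain ⟨v, hv, hv2⟩ := mem_image.1 h
          exact h8 ((ρ * σ).injective hv2 ▸ hv)
        have h11 : ρ (σ u) ∈ a j := by
          rw [← h6]
          exact mem_image.2 ⟨u, hu, rfl⟩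
        have h12 : ρ (σ u) ∉ a i := fun h => (disjoint_left.1 d2) h11 h
        have h13 := hρ2 _ h12 h10
        exact ρ.injective h13
      rw [← h6]
      apply image_congr
      intro u hu
      exact (h7 u hu).symm
    · intro σ _ σ' _ h
      exact mul_left_cancel h
  calc (T (a i)).card * (Fintype.card V).choose (b i).card
      = ∑ a' ∈ powersetCard (b i).card (univ : Finset V), (T (a i)).card := by
        rw [sum_const, card_powersetCard, card_univ, smul_eq_mul, mul_comm]
    _ ≤ ∑ a' ∈ powersetCard (b i).card (univ : Finset V), (T a').card := sum_le_sum h2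
    _ = (avoid b a S).card := h1.symm

/-- dependence of two events -/
def dep (i j : ι) : Prop := ¬ (Disjoint (b j) (b i) ∧ Disjoint (a j) (a i))

/-- the probability of an event -/
noncomputable def pr (i : ι) : ℝ := ((Fintype.card V).choose (b i).card : ℝ)⁻¹

theorem pr_nonneg (i : ι) : 0 ≤ pr b i := by unfold pr; positivity

theorem choose_pos' (i : ι) : 0 < (Fintype.card V).choose (b i).card :=
  Nat.choose_pos (card_le_univ _)

theorem neg_dep' (hcard : ∀ i, (b i).card = (a i).card) (i : ι) (S : Finset ι)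
    (hS : ∀ j ∈ S, Disjoint (b j) (b i) ∧ Disjoint (a j) (a i)) :
    ((hit b a S (b i) (a i)).card : ℝ) ≤
      pr b i * (avoid b a S).card := by
  have h1 := neg_dep b a hcard i S hS
  have h2 : (0 : ℝ) < (Fintype.card V).choose (b i).card := by exact_mod_cast choose_pos' b i
  unfold pr
  rw [inv_mul_eq_div, le_div_iff₀ h2]
  exact_mod_cast h1

open Classical in
theorem lll_step [Fintype ι] (hcard : ∀ i, (b i).card = (a i).card)
    (hsum : ∀ i, ∑ j ∈ univ.filter (fun j => dep b a i j), pr b j ≤ 1 / 4) (n : ℕ) :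
    ∀ (S : Finset ι), S.card ≤ n → ∀ i : ι,
      ((hit b a S (b i) (a i)).card : ℝ) ≤
        2 * pr b i * (avoid b a S).card := by
  induction n with
  | zero =>
    intro S hS i
    have h0 : S = ∅ := card_eq_zero.1 (by omega)
    subst h0
    have h1 := neg_dep' b a hcard i ∅ (by simp)
    have h2 := mul_nonneg (pr_nonneg b i) (Nat.cast_nonneg (α := ℝ) (avoid b a ∅).card)
    linarith
  | succ n ih =>
    intro S hS i
    set S1 := S.filter (fun j => dep b a i j) with hS1
    set S2 := S.filter (fun j => ¬ dep b a i j) with hS2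
    have hS2d : ∀ j ∈ S2, Disjoint (b j) (b i) ∧ Disjoint (a j) (a i) := by
      intro j hj
      exact not_not.1 (mem_filter.1 hj).2
    have h1 := neg_dep' b a hcard i S2 hS2d
    by_cases hS1e : S1 = ∅
    · have h3 : S = S2 := by
        rw [hS2, eq_comm, filter_eq_self]
        intro j hj hd
        have : j ∈ S1 := mem_filter.2 ⟨hj, hd⟩
        rw [hS1e] at this
        exact notMem_empty _ this
      rw [h3]
      have h2 := mul_nonneg (pr_nonneg b i) (Nat.cast_nonneg (α := ℝ) (avoid b a S2).card)
      linarith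
    · have hlt : S2.card ≤ n := by
        have h4 : S1.card + S2.card = S.card := card_filter_add_card_filter_not _
        have h5 : 0 < S1.card := card_pos.2 (nonempty_iff_ne_empty.2 hS1e)
        omega
      -- the lower bound for `avoid S`
      have hsub : avoid b a S ⊆ avoid b a S2 := by
        intro σ hσ
        rw [mem_avoid] at hσ ⊢
        exact fun j hj => hσ j (mem_filter.1 hj).1
      have hcov : avoid b a S2 ⊆ avoid b a S ∪
          S1.biUnion (fun j => hit b a S2 (b j) (a j)) := by
        intro σ hσ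
        rw [mem_union]
        by_cases h6 : σ ∈ avoid b a S
        · exact Or.inl h6
        · right
          rw [mem_avoid] at h6 hσ
          push Not at h6
          obtain ⟨j, hj, hj2⟩ := h6
          rw [mem_biUnion]
          have hj1 : j ∈ S1 := by
            rw [hS1, mem_filter]
            refine ⟨hj, ?_⟩
            by_contra h7
            have h8 : j ∈ S2 := mem_filter.2 ⟨hj, h7⟩
            exact hσ j h8 hj2
          exact ⟨j, hj1, (mem_hit b a _ _ _ _).2 ⟨hσ, hj2⟩⟩
      have hc1 : ((avoid b a S2).card : ℝ) ≤ (avoid b a S).card +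
          ∑ j ∈ S1, ((hit b a S2 (b j) (a j)).card : ℝ) := by
        have := (card_le_card hcov).trans ((card_union_le _ _).trans
          (Nat.add_le_add_left card_biUnion_le _))
        exact_mod_cast this
      have hc2 : ∑ j ∈ S1, ((hit b a S2 (b j) (a j)).card : ℝ) ≤
          (1 / 2) * (avoid b a S2).card := by
        calc _ ≤ ∑ j ∈ S1, 2 * pr b j * (avoid b a S2).card :=
              sum_le_sum fun j _ => ih S2 hlt j
          _ = 2 * (∑ j ∈ S1, pr b j) * (avoid b a S2).card := by
              rw [← sum_mul, ← mul_sum]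
          _ ≤ 2 * (1 / 4) * (avoid b a S2).card := by
              apply mul_le_mul_of_nonneg_right _ (Nat.cast_nonneg _)
              apply mul_le_mul_of_nonneg_left _ (by norm_num)
              refine le_trans ?_ (hsum i)
              apply sum_le_sum_of_subset_of_nonneg
              · intro j hj
                exact mem_filter.2 ⟨mem_univ _, (mem_filter.1 hj).2⟩
              · intro j _ _
                exact pr_nonneg b j
          _ = (1 / 2) * (avoid b a S2).card := by ring
      have hc3 : ((hit b a S (b i) (a i)).card : ℝ) ≤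
          (hit b a S2 (b i) (a i)).card := by
        have : hit b a S (b i) (a i) ⊆ hit b a S2 (b i) (a i) := by
          intro σ hσ
          rw [mem_hit] at hσ ⊢
          exact ⟨fun j hj => hσ.1 j (mem_filter.1 hj).1, hσ.2⟩
        exact_mod_cast card_le_card this
      have hp := pr_nonneg b i
      have hc4 : ((avoid b a S2).card : ℝ) ≤ 2 * (avoid b a S).card := by linarith
      calc _ ≤ _ := hc3
        _ ≤ _ := h1
        _ ≤ pr b i * (2 * (avoid b a S).card) := mul_le_mul_of_nonneg_left hc4 hp
        _ = 2 * pr b i * (avoid b a S).card := by ring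

open Classical in
theorem lll [Fintype ι] (hcard : ∀ i, (b i).card = (a i).card) (hne : ∀ i, (b i).Nonempty)
    (hsum : ∀ i, ∑ j ∈ univ.filter (fun j => dep b a i j), pr b j ≤ 1 / 4) :
    ∃ σ : Equiv.Perm V, ∀ i, (b i).image σ ≠ a i := by
  have hp : ∀ i, pr b i ≤ 1 / 4 := by
    intro i
    refine le_trans ?_ (hsum i)
    apply single_le_sum (f := fun j => pr b j) (fun j _ => pr_nonneg b j)
    rw [mem_filter]
    refine ⟨mem_univ _, ?_⟩
    rintro ⟨h1, _⟩
    exact (hne i).ne_empty (disjoint_self.1 h1)
  have hpos : ∀ S : Finset ι, 0 < (avoid b a S).card := by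
    intro S
    induction S using Finset.induction_on with
    | empty =>
      rw [card_pos]
      exact ⟨1, by simp [mem_avoid]⟩
    | insert i S hi ih =>
      have h1 := lll_step b a hcard hsum S.card S le_rfl i
      have h2 : avoid b a S ⊆ avoid b a (insert i S) ∪ hit b a S (b i) (a i) := by
        intro σ hσ
        rw [mem_union]
        rw [mem_avoid] at hσ
        by_cases h3 : (b i).image σ = a i
        · exact Or.inr ((mem_hit b a _ _ _ _).2 ⟨hσ, h3⟩)
        · left
          rw [mem_avoid]
          refine fun j hj => ?_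
          rcases mem_insert.1 hj with rfl | hj
          · exact h3
          · exact hσ j hj
      have h4 : ((avoid b a S).card : ℝ) ≤ (avoid b a (insert i S)).card +
          (hit b a S (b i) (a i)).card := by
        exact_mod_cast (card_le_card h2).trans (card_union_le _ _)
      have h5 : (0 : ℝ) < (avoid b a S).card := by exact_mod_cast ih
      have h6 : 2 * pr b i * (avoid b a S).card ≤ 2 * (1 / 4) * (avoid b a S).card := by
        apply mul_le_mul_of_nonneg_right _ h5.le
        linarith [hp i]
      have h7 : (0 : ℝ) < (avoid b a (insert i S)).card := by linarith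
      exact_mod_cast h7
  obtain ⟨σ, hσ⟩ := card_pos.1 (hpos univ)
  rw [mem_avoid] at hσ
  exact ⟨σ, fun i => hσ i (mem_univ _)⟩

open Classical in
/-- the local lemma with vertex sums -/
theorem lll_vertex [Fintype ι] (hcard : ∀ i, (b i).card = (a i).card) (hne : ∀ i, (b i).Nonempty)
    (h3 : ∀ i, (b i).card ≤ 3)
    (hb : ∀ x : V, ∑ j ∈ univ.filter (fun j => x ∈ b j), pr b j ≤ 1 / 24)
    (ha : ∀ x : V, ∑ j ∈ univ.filter (fun j => x ∈ a j), pr b j ≤ 1 / 24) :
    ∃ σ : Equiv.Perm V, ∀ i, (b i).image σ ≠ a i := by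
  apply lll b a hcard hne
  intro i
  have hsub : univ.filter (fun j => dep b a i j) ⊆
      (b i).biUnion (fun x => univ.filter (fun j => x ∈ b j)) ∪
      (a i).biUnion (fun x => univ.filter (fun j => x ∈ a j)) := by
    intro j hj
    have h1 := (mem_filter.1 hj).2
    unfold dep at h1
    rw [mem_union, mem_biUnion, mem_biUnion]
    by_cases h2 : Disjoint (b j) (b i)
    · right
      have h4 : ¬ Disjoint (a j) (a i) := fun h => h1 ⟨h2, h⟩
      rw [not_disjoint_iff] at h4
      obtain ⟨x, hx1, hx2⟩ := h4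
      exact ⟨x, hx2, mem_filter.2 ⟨mem_univ _, hx1⟩⟩
    · left
      rw [not_disjoint_iff] at h2
      obtain ⟨x, hx1, hx2⟩ := h2
      exact ⟨x, hx2, mem_filter.2 ⟨mem_univ _, hx1⟩⟩
  have hnn : ∀ j : ι, 0 ≤ pr b j := pr_nonneg b
  have hbound : ∀ (U : Finset V) (f : V → Finset ι), U.card ≤ 3 →
      (∀ x, ∑ j ∈ f x, pr b j ≤ 1 / 24) → ∑ j ∈ U.biUnion f, pr b j ≤ 1 / 8 := by
    intro U f hU hf
    calc ∑ j ∈ U.biUnion f, pr b j ≤ ∑ x ∈ U, ∑ j ∈ f x, pr b j :=
          sum_biUnion_le hnn U f
      _ ≤ ∑ x ∈ U, (1 / 24 : ℝ) := sum_le_sum fun x _ => hf x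
      _ = U.card * (1 / 24) := by rw [sum_const, nsmul_eq_mul]
      _ ≤ 3 * (1 / 24) := by
          have : (U.card : ℝ) ≤ 3 := by exact_mod_cast hU
          linarith
      _ = 1 / 8 := by norm_num
  calc ∑ j ∈ univ.filter (fun j => dep b a i j), pr b j
      ≤ ∑ j ∈ (b i).biUnion (fun x => univ.filter (fun j => x ∈ b j)) ∪
      (a i).biUnion (fun x => univ.filter (fun j => x ∈ a j)), pr b j :=
        sum_le_sum_of_subset_of_nonneg hsub (fun j _ _ => hnn j)
    _ ≤ ∑ j ∈ (b i).biUnion (fun x => univ.filter (fun j => x ∈ b j)), pr b j +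
        ∑ j ∈ (a i).biUnion (fun x => univ.filter (fun j => x ∈ a j)), pr b j := by
        have h9 := sum_union_inter (s₁ := (b i).biUnion (fun x => univ.filter (fun j => x ∈ b j)))
          (s₂ := (a i).biUnion (fun x => univ.filter (fun j => x ∈ a j))) (f := fun j => pr b j)
        have h10 : 0 ≤ ∑ j ∈ (b i).biUnion (fun x => univ.filter (fun j => x ∈ b j)) ∩
          (a i).biUnion (fun x => univ.filter (fun j => x ∈ a j)), pr b j :=
          sum_nonneg fun j _ => hnn j
        linarith
    _ ≤ 1 / 8 + 1 / 8 := add_le_add (hbound _ _ (h3 i) hb)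
        (hbound _ _ (by rw [← hcard]; exact h3 i) ha)
    _ = 1 / 4 := by norm_num

open Classical in
/-- the local lemma for permutations fixing `Q` pointwise -/
theorem lll_rel [Fintype ι] (Q : Finset V) (hcard : ∀ i, (b i).card = (a i).card)
    (hne : ∀ i, (b i).Nonempty) (h3 : ∀ i, (b i).card ≤ 3) (hbQ : ∀ i, Disjoint (b i) Q)
    (haQ : ∀ i, Disjoint (a i) Q)
    (hb : ∀ x ∉ Q, ∑ j ∈ univ.filter (fun j => x ∈ b j),
      (((Fintype.card V - Q.card).choose (b j).card : ℕ) : ℝ)⁻¹ ≤ 1 / 24)
    (ha : ∀ x ∉ Q, ∑ j ∈ univ.filter (fun j => x ∈ a j),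
      (((Fintype.card V - Q.card).choose (b j).card : ℕ) : ℝ)⁻¹ ≤ 1 / 24) :
    ∃ σ : Equiv.Perm V, (∀ v ∈ Q, σ v = v) ∧ ∀ i, (b i).image σ ≠ a i := by
  set b' : ι → Finset {v // v ∉ Q} := fun i => (b i).subtype (fun v => v ∉ Q) with hb'
  set a' : ι → Finset {v // v ∉ Q} := fun i => (a i).subtype (fun v => v ∉ Q) with ha'
  have hcb : ∀ i, (b' i).card = (b i).card := by
    intro i
    rw [hb', card_subtype, filter_true_of_mem]
    intro v hv
    exact fun h => (disjoint_left.1 (hbQ i)) hv h
  have hca : ∀ i, (a' i).card = (a i).card := by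
    intro i
    rw [ha', card_subtype, filter_true_of_mem]
    intro v hv
    exact fun h => (disjoint_left.1 (haQ i)) hv h
  have hcV : Fintype.card {v // v ∉ Q} = Fintype.card V - Q.card := by
    rw [Fintype.card_subtype_compl, Fintype.card_coe]
  have hpr : ∀ j, pr b' j = (((Fintype.card V - Q.card).choose (b j).card : ℕ) : ℝ)⁻¹ := by
    intro j
    rw [pr, hcV, hcb]
  obtain ⟨σ, hσ⟩ := lll_vertex b' a' (fun i => by rw [hcb, hca, hcard])
    (fun i => card_pos.1 (by rw [hcb]; exact card_pos.2 (hne i))) (fun i => by rw [hcb]; exact h3 i)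
    (fun x => by
      refine le_trans (le_of_eq ?_) (hb x.1 x.2)
      apply sum_congr
      · ext j
        simp [hb', mem_subtype]
      · intro j _
        exact hpr j)
    (fun x => by
      refine le_trans (le_of_eq ?_) (ha x.1 x.2)
      apply sum_congr
      · ext j
        simp [ha', mem_subtype]
      · intro j _
        exact hpr j)
  refine ⟨Equiv.Perm.ofSubtype σ, fun v hv => ?_, fun i h => hσ i ?_⟩
  · exact Equiv.Perm.ofSubtype_apply_of_not_mem σ (by simpa using hv)
  · ext y
    rw [mem_image, ha', mem_subtype]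
    rw [← h, mem_image]
    constructor
    · rintro ⟨x, hx, rfl⟩
      refine ⟨x.1, mem_subtype.1 hx, ?_⟩
      rw [Equiv.Perm.ofSubtype_apply_coe]
    · rintro ⟨x, hx, hx2⟩
      have h1 : x ∉ Q := fun h => (disjoint_left.1 (hbQ i)) hx h
      refine ⟨⟨x, h1⟩, mem_subtype.2 hx, ?_⟩
      apply Subtype.ext
      rw [← hx2]
      exact (Equiv.Perm.ofSubtype_apply_coe σ ⟨x, h1⟩).symm

end lll

end Pool.Agent.R767.SS
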