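import Mathlib

/-!
Degrees and codegrees in a family of three-element sets; greedy choice of light vertices.
-/

set_option autoImplicit false

open Finset

namespace Pool.Agent.R767.SS

variable {V : Type} [Fintype V] [DecidableEq V] (A : Finset (Finset V))

/-- degree of a vertex -/
def deg (v : V) : ℕ := (A.filter (fun f => v ∈ f)).card

/-- codegree of two vertices -/
def cod (u v : V) : ℕ := (A.filter (fun f => u ∈ f ∧ v ∈ f)).card

omit [Fintype V] in
theorem deg_le (v : V) : deg A v ≤ A.card := card_filter_le _ _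

omit [Fintype V] in
theorem cod_le_deg_left (u v : V) : cod A u v ≤ deg A u :=
  card_le_card (fun f hf => by
    rw [mem_filter] at hf ⊢
    exact ⟨hf.1, hf.2.1⟩)

omit [Fintype V] in
theorem cod_le_deg_right (u v : V) : cod A u v ≤ deg A v :=
  card_le_card (fun f hf => by
    rw [mem_filter] at hf ⊢
    exact ⟨hf.1, hf.2.2⟩)

omit [Fintype V] in
theorem cod_comm (u v : V) : cod A u v = cod A v u := by
  unfold cod
  congr 1
  ext f
  simp only [mem_filter]
  tauto

theorem sum_deg (hA : ∀ f ∈ A, f.card = 3) : ∑ v, deg A v = 3 * A.card := by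
  unfold deg
  simp only [card_filter]
  rw [sum_comm]
  have : ∀ f ∈ A, (∑ v, if v ∈ f then 1 else 0) = 3 := by
    intro f hf
    rw [← card_filter, filter_mem_eq_inter, univ_inter, hA f hf]
  rw [sum_congr rfl this, sum_const, smul_eq_mul, mul_comm]

theorem sum_cod (hA : ∀ f ∈ A, f.card = 3) (v : V) : ∑ x, cod A x v = 3 * deg A v := by
  have h1 := sum_deg (A.filter (fun f => v ∈ f)) (fun f hf => hA f (mem_filter.1 hf).1)
  have h2 : ∀ x, cod A x v = deg (A.filter (fun f => v ∈ f)) x := by
    intro x
    unfold cod deg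
    rw [filter_filter]
    congr 1
    ext f
    simp only [mem_filter]
    tauto
  simp only [h2]
  rw [h1]
  rfl

theorem cod_le_card (hA : ∀ f ∈ A, f.card = 3) {x v : V} (hxv : x ≠ v) :
    cod A x v ≤ Fintype.card V := by
  unfold cod
  have h1 : (powersetCard 1 (univ : Finset V)).card = Fintype.card V := by
    rw [card_powersetCard, Nat.choose_one_right, card_univ]
  rw [← h1]
  apply card_le_card_of_injOn (fun f => f \ {x, v})
  · intro f hf
    rw [mem_coe, mem_filter] at hf
    rw [mem_coe, mem_powersetCard]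
    refine ⟨subset_univ _, ?_⟩
    have h2 : ({x, v} : Finset V) ⊆ f := by
      intro u hu
      rcases mem_insert.1 hu with rfl | hu
      · exact hf.2.1
      · rw [mem_singleton.1 hu]; exact hf.2.2
    rw [card_sdiff_of_subset h2, hA f hf.1, card_pair hxv]
  · intro f hf g hg hfg
    rw [mem_coe, mem_filter] at hf hg
    have key : ∀ f : Finset V, x ∈ f → v ∈ f → f = (f \ {x, v}) ∪ {x, v} := by
      intro f h1 h2
      rw [sdiff_union_of_subset]
      intro u hu
      rcases mem_insert.1 hu with rfl | hu
      · exact h1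
      · rw [mem_singleton.1 hu]; exact h2
    have hfg' : f \ {x, v} = g \ {x, v} := hfg
    rw [key f hf.2.1 hf.2.2, key g hg.2.1 hg.2.2, hfg']

/-- a set of vertices no two of which lie in a common member of `A` -/
def Good (P : Finset V) : Prop := ∀ u ∈ P, ∀ v ∈ P, u ≠ v → cod A u v = 0

/-- greedy choice -/
theorem greedy (hA : ∀ f ∈ A, f.card = 3) (L : Finset V) (R : ℝ) (hR : 0 ≤ R)
    (hL : ∀ v ∈ L, (deg A v : ℝ) ≤ R) (P B : Finset V) (hPL : P ⊆ L) (hP : Good A P) (N : ℕ)
    (hN : (B.card : ℝ) + (P.card + N) * (3 * R + 1) < L.card) :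
    ∃ P1 : Finset V, P1 ⊆ L ∧ Disjoint P1 P ∧ Disjoint P1 B ∧ P1.card = N ∧ Good A (P ∪ P1) := by
  induction N with
  | zero => exact ⟨∅, by simp, by simp, by simp, rfl, by simpa using hP⟩
  | succ N ih =>
    obtain ⟨P1, h1, h2, h3, h4, h5⟩ := ih (by
      push_cast at hN ⊢
      nlinarith)
    -- the forbidden vertices
    set bad : Finset V := (P ∪ P1).biUnion (fun u => univ.filter (fun x => cod A x u ≠ 0)) with hbad
    have hbadc : (bad.card : ℝ) ≤ (P.card + N) * (3 * R) := by
      have e1 : bad.card ≤ ∑ u ∈ P ∪ P1, (univ.filter (fun x => cod A x u ≠ 0)).card :=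
        card_biUnion_le
      have e2 : ∀ u ∈ P ∪ P1, (((univ.filter (fun x => cod A x u ≠ 0)).card : ℕ) : ℝ) ≤ 3 * R := by
        intro u hu
        have e3 : (univ.filter (fun x => cod A x u ≠ 0)).card ≤ ∑ x, cod A x u := by
          rw [card_filter]
          apply sum_le_sum
          intro x _
          split_ifs with h
          · omega
          · omega
        rw [sum_cod A hA] at e3
        have e4 : u ∈ L := by
          rcases mem_union.1 hu with h | h
          · exact hPL h
          · exact h1 h
        have e5 : (((univ.filter (fun x => cod A x u ≠ 0)).card : ℕ) : ℝ) ≤ 3 * deg A u := by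
          exact_mod_cast e3
        linarith [hL u e4]
      have e6 : (bad.card : ℝ) ≤ ∑ u ∈ P ∪ P1, (((univ.filter (fun x => cod A x u ≠ 0)).card : ℕ) : ℝ) := by
        exact_mod_cast e1
      refine e6.trans ((sum_le_sum e2).trans ?_)
      rw [sum_const, nsmul_eq_mul, card_union_of_disjoint h2.symm, h4]
      push_cast
      exact le_rfl
    have hex : ∃ v ∈ L, v ∉ B ∪ (P ∪ P1) ∪ bad := by
      by_contra hcon
      push Not at hcon
      have e7 : L ⊆ B ∪ (P ∪ P1) ∪ bad := fun v hv => hcon v hv
      have e8 : (L.card : ℝ) ≤ (B.card + (P.card + N)) + bad.card := by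
        have := (card_le_card e7).trans ((card_union_le _ _).trans
          (Nat.add_le_add_right (card_union_le _ _) _))
        rw [card_union_of_disjoint h2.symm, h4] at this
        exact_mod_cast this
      push_cast at hN
      nlinarith
    obtain ⟨v, hv1, hv2⟩ := hex
    rw [mem_union, mem_union, mem_union] at hv2
    push Not at hv2
    obtain ⟨⟨hvB, hvP, hvP1⟩, hvbad⟩ := hv2
    have hv0 : ∀ u ∈ P ∪ P1, cod A v u = 0 := by
      intro u hu
      by_contra h
      apply hvbad
      rw [hbad, mem_biUnion]
      exact ⟨u, hu, mem_filter.2 ⟨mem_univ _, h⟩⟩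
    refine ⟨insert v P1, ?_, ?_, ?_, ?_, ?_⟩
    · intro u hu
      rcases mem_insert.1 hu with rfl | hu
      · exact hv1
      · exact h1 hu
    · rw [disjoint_insert_left]
      exact ⟨hvP, h2⟩
    · rw [disjoint_insert_left]
      exact ⟨hvB, h3⟩
    · rw [card_insert_of_notMem hvP1, h4]
    · intro a ha b hb hab
      rw [union_insert, mem_insert] at ha hb
      rcases ha with rfl | ha
      · rcases hb with rfl | hb
        · exact absurd rfl hab
        · exact hv0 b hb
      · rcases hb with rfl | hb
        · rw [cod_comm]; exact hv0 a ha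
        · exact h5 a ha b hb hab

omit [Fintype V] in
theorem exists_bij (F P : Finset V) (h : F.card = P.card) :
    ∃ φ : V → V, Set.InjOn φ F ∧ F.image φ = P := by
  classical
  set e := Finset.equivOfCardEq h with he
  set φ : V → V := fun v => if hv : v ∈ F then (e ⟨v, hv⟩ : V) else v with hφ
  have f1 : ∀ v (hv : v ∈ F), φ v = (e ⟨v, hv⟩ : V) := fun v hv => by
    simp only [hφ]; rw [dif_pos hv]
  have f3 : Set.InjOn φ ↑F := by
    intro u hu v hv huv
    rw [f1 u hu, f1 v hv] at huv
    have := e.injective (Subtype.ext huv)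
    exact congrArg Subtype.val this
  refine ⟨φ, f3, ?_⟩
  apply eq_of_subset_of_card_le
  · intro w hw
    obtain ⟨v, hv, rfl⟩ := mem_image.1 hw
    rw [f1 v hv]
    exact (e ⟨v, hv⟩).2
  · rw [card_image_of_injOn f3, h]

end Pool.Agent.R767.SS
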