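import Mathlib
import Pool.Agent.R767.SS.LLL
import Pool.Agent.R767.SS.Deg

/-!
The local lemma argument once the images of the heavy vertices are fixed.
-/

set_option autoImplicit false

open Finset

namespace Pool.Agent.R767.SS

variable {V : Type} [Fintype V] [DecidableEq V]

theorem finish (A : Finset (Finset V)) (hA : ∀ f ∈ A, f.card = 3) (F P : Finset V)
    (τ : Equiv.Perm V) (t1 : ∀ v ∈ F, τ v ∈ P) (t2 : ∀ v ∈ P, τ v ∈ F)
    (t3 : ∀ v, v ∉ F ∪ P → τ v = v) (t4 : ∀ v, τ (τ v) = v) (hgood : Good A P) (R : ℝ)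
    (hR : ∀ v ∈ P, (deg A v : ℝ) ≤ R)
    (hS : ∀ x ∉ F ∪ P,
      (deg A x * A.card : ℝ) * (((Fintype.card V - (F ∪ P).card).choose 3 : ℕ) : ℝ)⁻¹ +
      (∑ q ∈ F ∪ P, (cod A x (τ q) * deg A q : ℝ)) *
        (((Fintype.card V - (F ∪ P).card).choose 2 : ℕ) : ℝ)⁻¹ +
      (P.card * F.card * R) * (((Fintype.card V - (F ∪ P).card).choose 1 : ℕ) : ℝ)⁻¹ ≤ 1 / 24) :
    ∃ π : Equiv.Perm V, ∀ f ∈ A, f.image π ∉ A := by
  classical
  set Q := F ∪ P with hQ
  have tQ : ∀ v, τ v ∈ Q ↔ v ∈ Q := by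
    have h1 : ∀ v, v ∈ Q → τ v ∈ Q := by
      intro v hv
      rcases mem_union.1 hv with h | h
      · exact mem_union.2 (Or.inr (t1 v h))
      · exact mem_union.2 (Or.inl (t2 v h))
    intro v
    refine ⟨fun h => ?_, h1 v⟩
    have := h1 _ h
    rwa [t4] at this
  have himg : ∀ f : Finset V, (f.image τ) ∩ Q = (f ∩ Q).image τ := by
    intro f
    ext y
    simp only [mem_inter, mem_image]
    constructor
    · rintro ⟨⟨x, hx, rfl⟩, h2⟩
      exact ⟨x, ⟨hx, (tQ x).1 h2⟩, rfl⟩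
    · rintro ⟨x, ⟨hx, h2⟩, rfl⟩
      exact ⟨⟨x, hx, rfl⟩, (tQ x).2 h2⟩
  have hcardQ : ∀ f : Finset V, ((f.image τ) ∩ Q).card = (f ∩ Q).card := by
    intro f
    rw [himg, card_image_of_injective _ τ.injective]
  have hττ : ∀ f : Finset V, (f.image τ).image τ = f := by
    intro f
    rw [image_image]
    have : (τ ∘ τ : V → V) = id := by
      funext v; exact t4 v
    rw [this, image_id]
  set I : Finset (Finset V × Finset V) :=
    (A ×ˢ A).filter (fun p => (p.1.image τ) ∩ Q = p.2 ∩ Q) with hI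
  have memI : ∀ p, p ∈ I ↔ (p.1 ∈ A ∧ p.2 ∈ A) ∧ (p.1.image τ) ∩ Q = p.2 ∩ Q := by
    intro p
    rw [hI, mem_filter, mem_product]
  have hIcard : ∀ p ∈ I, (p.1 \ Q).card = (p.2 \ Q).card := by
    intro p hp
    obtain ⟨⟨h1, h2⟩, h3⟩ := (memI p).1 hp
    have e1 := card_sdiff_add_card_inter p.1 Q
    have e2 := card_sdiff_add_card_inter p.2 Q
    rw [hA _ h1] at e1
    rw [hA _ h2, ← h3, hcardQ] at e2
    omega
  have hIsymm : ∀ p ∈ I, (p.2, p.1) ∈ I := by
    intro p hp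
    obtain ⟨⟨h1, h2⟩, h3⟩ := (memI p).1 hp
    rw [memI]
    refine ⟨⟨h2, h1⟩, ?_⟩
    change (p.2.image τ) ∩ Q = p.1 ∩ Q
    rw [himg, ← h3, ← himg, hττ]
  have hPpair : ∀ f ∈ A, ∀ u ∈ f, ∀ v ∈ f, u ∈ P → v ∈ P → u = v := by
    intro f hf u hu v hv hu2 hv2
    by_contra hne
    have h1 := hgood u hu2 v hv2 hne
    unfold cod at h1
    rw [card_eq_zero, filter_eq_empty_iff] at h1
    exact h1 hf ⟨hu, hv⟩
  have hFpair : ∀ p ∈ I, ∀ u ∈ p.1, ∀ v ∈ p.1, u ∈ F → v ∈ F → u = v := by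
    intro p hp u hu v hv hu2 hv2
    obtain ⟨⟨h1, h2⟩, h3⟩ := (memI p).1 hp
    have key : ∀ u ∈ p.1, u ∈ F → τ u ∈ p.2 := by
      intro u hu hu2
      have : τ u ∈ (p.1.image τ) ∩ Q :=
        mem_inter.2 ⟨mem_image_of_mem _ hu, (tQ u).2 (mem_union.2 (Or.inl hu2))⟩
      rw [h3] at this
      exact (mem_inter.1 this).1
    exact τ.injective (hPpair p.2 h2 _ (key u hu hu2) _ (key v hv hv2) (t1 u hu2) (t1 v hv2))
  have hInonempty : ∀ p ∈ I, (p.1 \ Q).Nonempty := by
    intro p hp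
    obtain ⟨⟨h1, h2⟩, h3⟩ := (memI p).1 hp
    by_contra hne
    rw [not_nonempty_iff_eq_empty, sdiff_eq_empty_iff_subset] at hne
    have e1 : (p.1 ∩ F).card ≤ 1 := by
      rw [card_le_one]
      intro u hu v hv
      rw [mem_inter] at hu hv
      exact hFpair p hp u hu.1 v hv.1 hu.2 hv.2
    have e2 : (p.1 ∩ P).card ≤ 1 := by
      rw [card_le_one]
      intro u hu v hv
      rw [mem_inter] at hu hv
      exact hPpair p.1 h1 u hu.1 v hv.1 hu.2 hv.2
    have e3 : p.1 ⊆ (p.1 ∩ F) ∪ (p.1 ∩ P) := by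
      intro v hv
      rcases mem_union.1 (hne hv) with h | h
      · exact mem_union.2 (Or.inl (mem_inter.2 ⟨hv, h⟩))
      · exact mem_union.2 (Or.inr (mem_inter.2 ⟨hv, h⟩))
    have e4 := (card_le_card e3).trans (card_union_le _ _)
    rw [hA _ h1] at e4
    omega
  -- the main sum
  set G : Finset V → ℝ := fun f =>
    (((Fintype.card V - Q.card).choose (f \ Q).card : ℕ) : ℝ)⁻¹ with hG
  have hGnn : ∀ f, 0 ≤ G f := fun f => by simp only [hG]; positivity
  have hmain : ∀ x ∉ Q, ∑ p ∈ I.filter (fun p => x ∈ p.1 \ Q), G p.1 ≤ 1 / 24 := by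
    intro x hx
    refine le_trans ?_ (hS x hx)
    set c3 : ℝ := (((Fintype.card V - Q.card).choose 3 : ℕ) : ℝ)⁻¹ with hc3
    set c2 : ℝ := (((Fintype.card V - Q.card).choose 2 : ℕ) : ℝ)⁻¹ with hc2
    set c1 : ℝ := (((Fintype.card V - Q.card).choose 1 : ℕ) : ℝ)⁻¹ with hc1
    have c3n : 0 ≤ c3 := by positivity
    have c2n : 0 ≤ c2 := by positivity
    have c1n : 0 ≤ c1 := by positivity
    set J := I.filter (fun p => x ∈ p.1 \ Q) with hJ
    have memJ : ∀ p, p ∈ J ↔ p ∈ I ∧ x ∈ p.1 := by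
      intro p
      rw [hJ, mem_filter, mem_sdiff]
      exact ⟨fun h => ⟨h.1, h.2.1⟩, fun h => ⟨h.1, h.2, hx⟩⟩
    have split : ∀ p ∈ J, G p.1 ≤ (if (p.1 ∩ Q).card = 0 then c3 else 0) +
        (if (p.1 ∩ Q).card = 1 then c2 else 0) + (if (p.1 ∩ Q).card = 2 then c1 else 0) := by
      intro p hp
      obtain ⟨hpI, hxp⟩ := (memJ p).1 hp
      obtain ⟨⟨h1, h2⟩, h3⟩ := (memI p).1 hpI
      have e1 := card_sdiff_add_card_inter p.1 Q
      rw [hA _ h1] at e1
      have e2 : 0 < (p.1 \ Q).card := card_pos.2 ⟨x, mem_sdiff.2 ⟨hxp, hx⟩⟩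
      have e3 : (p.1 ∩ Q).card = 0 ∨ (p.1 ∩ Q).card = 1 ∨ (p.1 ∩ Q).card = 2 := by omega
      rcases e3 with e | e | e
      · have e4 : (p.1 \ Q).card = 3 := by omega
        simp only [hG, e, e4]
        simp [hc3]
      · have e4 : (p.1 \ Q).card = 2 := by omega
        simp only [hG, e, e4]
        simp [hc2]
      · have e4 : (p.1 \ Q).card = 1 := by omega
        simp only [hG, e, e4]
        simp [hc1]
    have hsum : ∑ p ∈ J, G p.1 ≤ (J.filter (fun p => (p.1 ∩ Q).card = 0)).card * c3 +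
        (J.filter (fun p => (p.1 ∩ Q).card = 1)).card * c2 +
        (J.filter (fun p => (p.1 ∩ Q).card = 2)).card * c1 := by
      refine (sum_le_sum split).trans (le_of_eq ?_)
      rw [sum_add_distrib, sum_add_distrib, ← sum_filter, ← sum_filter, ← sum_filter, sum_const,
        sum_const, sum_const, nsmul_eq_mul, nsmul_eq_mul, nsmul_eq_mul]
    refine hsum.trans (add_le_add (add_le_add ?_ ?_) ?_)
    · -- no fixed vertex
      apply mul_le_mul_of_nonneg_right _ c3n
      have : J.filter (fun p => (p.1 ∩ Q).card = 0) ⊆ (A.filter (fun f => x ∈ f)) ×ˢ A := by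
        intro p hp
        obtain ⟨hpJ, _⟩ := mem_filter.1 hp
        obtain ⟨hpI, hxp⟩ := (memJ p).1 hpJ
        obtain ⟨⟨h1, h2⟩, h3⟩ := (memI p).1 hpI
        exact mem_product.2 ⟨mem_filter.2 ⟨h1, hxp⟩, h2⟩
      have h := card_le_card this
      rw [card_product] at h
      exact_mod_cast h
    · -- one fixed vertex
      apply mul_le_mul_of_nonneg_right _ c2n
      have : J.filter (fun p => (p.1 ∩ Q).card = 1) ⊆ Q.biUnion (fun q =>
          (A.filter (fun f => x ∈ f ∧ τ q ∈ f)) ×ˢ (A.filter (fun f => q ∈ f))) := by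
        intro p hp
        obtain ⟨hpJ, hp1⟩ := mem_filter.1 hp
        obtain ⟨hpI, hxp⟩ := (memJ p).1 hpJ
        obtain ⟨⟨h1, h2⟩, h3⟩ := (memI p).1 hpI
        rw [← hcardQ] at hp1
        obtain ⟨q, hq⟩ := card_eq_one.1 hp1
        have hq1 : q ∈ (p.1.image τ) ∩ Q := by rw [hq]; exact mem_singleton_self q
        have hq2 : q ∈ p.2 ∩ Q := by rw [← h3]; exact hq1
        rw [mem_inter] at hq1 hq2
        obtain ⟨u, hu, hu2⟩ := mem_image.1 hq1.1
        have hτq : τ q = u := by rw [← hu2, t4]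
        rw [mem_biUnion]
        refine ⟨q, hq1.2, mem_product.2 ⟨mem_filter.2 ⟨h1, hxp, ?_⟩, mem_filter.2 ⟨h2, hq2.1⟩⟩⟩
        rw [hτq]; exact hu
      have h := (card_le_card this).trans card_biUnion_le
      simp only [card_product] at h
      exact_mod_cast h
    · -- two fixed vertices
      apply mul_le_mul_of_nonneg_right _ c1n
      have : J.filter (fun p => (p.1 ∩ Q).card = 2) ⊆ (P ×ˢ F).biUnion (fun q =>
          ({({x, τ q.1, τ q.2} : Finset V)} : Finset (Finset V)) ×ˢ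
            (A.filter (fun f => q.1 ∈ f))) := by
        intro p hp
        obtain ⟨hpJ, hp1⟩ := mem_filter.1 hp
        obtain ⟨hpI, hxp⟩ := (memJ p).1 hpJ
        obtain ⟨⟨h1, h2⟩, h3⟩ := (memI p).1 hpI
        rw [← hcardQ] at hp1
        obtain ⟨q1, q2, hne, hq⟩ := card_eq_two.1 hp1
        have key : ∀ q, q ∈ (p.1.image τ) ∩ Q → q ∈ p.2 ∧ q ∈ Q ∧ τ q ∈ p.1 := by
          intro q hq1
          have hq2 : q ∈ p.2 ∩ Q := by rw [← h3]; exact hq1
          rw [mem_inter] at hq1 hq2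
          obtain ⟨u, hu, hu2⟩ := mem_image.1 hq1.1
          have hτq : τ q = u := by rw [← hu2, t4]
          exact ⟨hq2.1, hq2.2, by rw [hτq]; exact hu⟩
        obtain ⟨a1, a2, a3⟩ := key q1 (by rw [hq]; simp)
        obtain ⟨b1, b2, b3⟩ := key q2 (by rw [hq]; simp)
        have triple : ∀ q q', q ≠ q' → q ∈ Q → q' ∈ Q → τ q ∈ p.1 → τ q' ∈ p.1 →
            p.1 = {x, τ q, τ q'} := by
          intro q q' hqq hqQ hqQ' hq hq'
          have hx1 : x ≠ τ q := fun h => hx (by rw [h]; exact (tQ q).2 hqQ)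
          have hx2 : x ≠ τ q' := fun h => hx (by rw [h]; exact (tQ q').2 hqQ')
          have hx3 : τ q ≠ τ q' := fun h => hqq (τ.injective h)
          symm
          apply eq_of_subset_of_card_le
          · intro v hv
            simp only [mem_insert, mem_singleton] at hv
            rcases hv with rfl | rfl | rfl
            · exact hxp
            · exact hq
            · exact hq'
          · rw [hA _ h1]
            have : ({x, τ q, τ q'} : Finset V).card = 3 := by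
              rw [card_eq_three]
              exact ⟨x, τ q, τ q', hx1, hx2, hx3, rfl⟩
            omega
        rw [mem_biUnion]
        -- one of the two is in `P`, the other in `F`
        rcases mem_union.1 a2 with ha | ha
        · rcases mem_union.1 b2 with hb | hb
          · exfalso
            have := hPpair p.1 h1 _ a3 _ b3 (t1 _ ha) (t1 _ hb)
            exact hne (τ.injective this)
          · refine ⟨(q2, q1), mem_product.2 ⟨hb, ha⟩, mem_product.2
              ⟨mem_singleton.2 (triple q2 q1 hne.symm b2 a2 b3 a3), mem_filter.2 ⟨h2, b1⟩⟩⟩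
        · rcases mem_union.1 b2 with hb | hb
          · refine ⟨(q1, q2), mem_product.2 ⟨ha, hb⟩, mem_product.2
              ⟨mem_singleton.2 (triple q1 q2 hne a2 b2 a3 b3), mem_filter.2 ⟨h2, a1⟩⟩⟩
          · exfalso
            exact hne (hPpair p.2 h2 _ a1 _ b1 ha hb)
      have h := (card_le_card this).trans card_biUnion_le
      have h5 : ((J.filter (fun p => (p.1 ∩ Q).card = 2)).card : ℝ) ≤
          ∑ q ∈ P ×ˢ F, (deg A q.1 : ℝ) := by
        simp only [card_product, card_singleton, one_mul] at h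
        exact_mod_cast h
      refine h5.trans ?_
      calc ∑ q ∈ P ×ˢ F, (deg A q.1 : ℝ) ≤ ∑ q ∈ P ×ˢ F, R :=
            sum_le_sum fun q hq => hR _ (mem_product.1 hq).1
        _ = P.card * F.card * R := by
            rw [sum_const, card_product, nsmul_eq_mul]; push_cast; ring
  -- the range sum
  have hmain2 : ∀ x ∉ Q, ∑ p ∈ I.filter (fun p => x ∈ p.2 \ Q), G p.1 ≤ 1 / 24 := by
    intro x hx
    refine le_trans (le_of_eq ?_) (hmain x hx)
    apply sum_nbij' (fun p => (p.2, p.1)) (fun p => (p.2, p.1))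
    · intro p hp
      obtain ⟨h1, h2⟩ := mem_filter.1 hp
      exact mem_filter.2 ⟨hIsymm p h1, h2⟩
    · intro p hp
      obtain ⟨h1, h2⟩ := mem_filter.1 hp
      exact mem_filter.2 ⟨hIsymm p h1, h2⟩
    · intro p _; rfl
    · intro p _; rfl
    · intro p hp
      obtain ⟨h1, h2⟩ := mem_filter.1 hp
      simp only [hG]
      rw [hIcard p h1]
  -- apply the local lemma
  obtain ⟨σ, hσ1, hσ2⟩ := lll_rel (ι := {p // p ∈ I}) (fun p => p.1.1 \ Q) (fun p => p.1.2 \ Q) Q
    (fun p => hIcard p.1 p.2) (fun p => hInonempty p.1 p.2)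
    (fun p => by
      have := card_le_card (sdiff_subset (s := p.1.1) (t := Q))
      rw [hA _ ((memI p.1).1 p.2).1.1] at this
      exact this)
    (fun p => sdiff_disjoint) (fun p => sdiff_disjoint)
    (fun x hx => by
      refine le_trans (le_of_eq ?_) (hmain x hx)
      apply sum_nbij (fun j : {p // p ∈ I} => j.1)
      · intro j hj
        exact mem_filter.2 ⟨j.2, (mem_filter.1 hj).2⟩
      · intro j _ j' _ h
        exact Subtype.ext h
      · intro p hp
        obtain ⟨h1, h2⟩ := mem_filter.1 hp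
        exact ⟨⟨p, h1⟩, by simpa using h2, rfl⟩
      · intro j _
        rfl)
    (fun x hx => by
      refine le_trans (le_of_eq ?_) (hmain2 x hx)
      apply sum_nbij (fun j : {p // p ∈ I} => j.1)
      · intro j hj
        exact mem_filter.2 ⟨j.2, (mem_filter.1 hj).2⟩
      · intro j _ j' _ h
        exact Subtype.ext h
      · intro p hp
        obtain ⟨h1, h2⟩ := mem_filter.1 hp
        exact ⟨⟨p, h1⟩, by simpa using h2, rfl⟩
      · intro j _
        rfl)
  have hσQ : ∀ v, σ v ∈ Q ↔ v ∈ Q := by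
    intro v
    constructor
    · intro h
      have h1 := hσ1 _ h
      have h2 := σ.injective h1
      rwa [h2] at h
    · intro h
      rwa [hσ1 v h]
  refine ⟨σ * τ, fun f hf hf2 => ?_⟩
  have himg2 : f.image (σ * τ) = (f.image τ).image σ := by
    rw [image_image]; rfl
  have h1 : (f.image τ) ∩ Q = (f.image (σ * τ)) ∩ Q := by
    rw [himg2]
    ext y
    simp only [mem_inter]
    constructor
    · rintro ⟨h1, h2⟩
      exact ⟨mem_image.2 ⟨y, h1, hσ1 y h2⟩, h2⟩
    · rintro ⟨h1, h2⟩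
      obtain ⟨u, hu, hu2⟩ := mem_image.1 h1
      have h3 : u ∈ Q := (hσQ u).1 (by rw [hu2]; exact h2)
      rw [hσ1 u h3] at hu2
      rw [← hu2]
      exact ⟨hu, h3⟩
  have hpI : (f, f.image (σ * τ)) ∈ I := (memI _).2 ⟨⟨hf, hf2⟩, h1⟩
  apply hσ2 ⟨_, hpI⟩
  change (f \ Q).image σ = (f.image (σ * τ)) \ Q
  have h2 : f \ Q = (f.image τ) \ Q := by
    ext v
    simp only [mem_sdiff, mem_image]
    constructor
    · rintro ⟨h3, h4⟩
      exact ⟨⟨v, h3, t3 v h4⟩, h4⟩
    · rintro ⟨⟨u, hu, hu2⟩, h4⟩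
      have h5 : u ∉ Q := fun h => h4 (by rw [← hu2]; exact (tQ u).2 h)
      rw [t3 u h5] at hu2
      rw [← hu2]
      exact ⟨hu, h5⟩
  rw [himg2, h2]
  ext y
  simp only [mem_sdiff, mem_image]
  constructor
  · rintro ⟨x, ⟨hx1, hx2⟩, rfl⟩
    exact ⟨⟨x, hx1, rfl⟩, fun h => hx2 ((hσQ x).1 h)⟩
  · rintro ⟨⟨x, hx1, rfl⟩, h⟩
    exact ⟨x, ⟨hx1, fun h2 => h ((hσQ x).2 h2)⟩, rfl⟩

end Pool.Agent.R767.SS
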