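import Mathlib
import Pool.Agent.R767.SS.Finish

/-!
Choice of the images of the heavy vertices, and the main combinatorial theorem.
-/

set_option autoImplicit false

open Finset

namespace Pool.Agent.R767.SS

variable {V : Type} [Fintype V] [DecidableEq V]

/-- many vertices have small degree -/
theorem light_card (A : Finset (Finset V)) (hA : ∀ f ∈ A, f.card = 3) (R : ℝ) (hR : 0 < R)
    {b : ℝ} (hb : 3 * (A.card : ℝ) ≤ b * R) :
    (Fintype.card V : ℝ) - b ≤ ((univ.filter (fun v => (deg A v : ℝ) ≤ R)).card : ℝ) := by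
  set L := univ.filter (fun v => (deg A v : ℝ) ≤ R) with hL
  have h1 : (((univ.filter (fun v => ¬ (deg A v : ℝ) ≤ R)).card : ℕ) : ℝ) * R ≤ 3 * A.card := by
    have h2 : ∑ v ∈ univ.filter (fun v => ¬ (deg A v : ℝ) ≤ R), R ≤
        ∑ v, (deg A v : ℝ) := by
      refine (sum_le_sum (g := fun v => (deg A v : ℝ)) fun v hv => ?_).trans
        (sum_le_sum_of_subset_of_nonneg (subset_univ _) fun v _ _ => Nat.cast_nonneg _)
      exact (not_le.1 (mem_filter.1 hv).2).le
    rw [sum_const, nsmul_eq_mul] at h2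
    have h3 : (∑ v, (deg A v : ℝ)) = 3 * A.card := by exact_mod_cast sum_deg A hA
    rwa [h3] at h2
  have h4 : L.card + (univ.filter (fun v => ¬ (deg A v : ℝ) ≤ R)).card = Fintype.card V := by
    rw [hL, card_filter_add_card_filter_not, card_univ]
  have h5 : (((univ.filter (fun v => ¬ (deg A v : ℝ) ≤ R)).card : ℕ) : ℝ) ≤ b := by
    by_contra h
    have := mul_lt_mul_of_pos_right (not_le.1 h) hR
    linarith
  have h6 : (L.card : ℝ) + (((univ.filter (fun v => ¬ (deg A v : ℝ) ≤ R)).card : ℕ) : ℝ) =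
      Fintype.card V := by exact_mod_cast h4
  linarith

theorem core (A : Finset (Finset V)) (hA : ∀ f ∈ A, f.card = 3) (C : ℝ) (hC : 1 ≤ C) (M : ℕ)
    (hM : 3 * 10 ^ 8 * C ^ 4 ≤ M)
    (hm : (A.card : ℝ) ≤ C * Fintype.card V * √(Fintype.card V))
    (k1 : (Fintype.card V : ℝ) ^ 3 / 12 ≤ ((Fintype.card V - 4 * M).choose 3 : ℕ))
    (k2 : (Fintype.card V : ℝ) ^ 2 / 4 ≤ ((Fintype.card V - 4 * M).choose 2 : ℕ))
    (k3 : (Fintype.card V : ℝ) / 2 ≤ ((Fintype.card V - 4 * M).choose 1 : ℕ))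
    (k4 : 100 * (48 * M * C + 48 * M ^ 2 * C) ≤ √(Fintype.card V)) :
    ∃ π : Equiv.Perm V, ∀ f ∈ A, f.image π ∉ A := by
  classical
  by_cases hA0 : A = ∅
  · exact ⟨1, fun f hf => by rw [hA0] at hf; exact absurd hf (notMem_empty _)⟩
  have hmpos : (0 : ℝ) < A.card := by
    exact_mod_cast card_pos.2 (nonempty_iff_ne_empty.2 hA0)
  set k : ℝ := ((Fintype.card V : ℕ) : ℝ) with hk
  set m : ℝ := ((A.card : ℕ) : ℝ) with hmdef
  set r : ℝ := √k with hr
  have hk0 : 0 ≤ k := Nat.cast_nonneg _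
  have hr2 : r * r = k := Real.mul_self_sqrt hk0
  have hC0 : 0 < C := by linarith
  have hC2 : 1 ≤ C ^ 2 := one_le_pow₀ hC
  have hC4 : 1 ≤ C ^ 4 := one_le_pow₀ hC
  have hM1 : (1 : ℝ) ≤ M := by linarith
  have hrbig : 4800 * M * C ≤ r := by
    have : 0 ≤ (M : ℝ) ^ 2 * C := by positivity
    linarith
  have hMC : 1 ≤ M * C := one_le_mul_of_one_le_of_one_le hM1 hC
  have hr1 : 4800 ≤ r := by
    have : 4800 * M * C = 4800 * (M * C) := by ring
    linarith
  have hkpos : 0 < k := by rw [← hr2]; positivity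
  set R : ℝ := 6 * C * r with hRdef
  have hRpos : 0 < R := by positivity
  set δ : ℝ := 1 / (10 ^ 8 * C ^ 4) with hδ
  have hδpos : 0 < δ := by positivity
  -- light vertices
  set L := univ.filter (fun v => (deg A v : ℝ) ≤ R) with hL
  have hLdeg : ∀ v ∈ L, (deg A v : ℝ) ≤ R := fun v hv => (mem_filter.1 hv).2
  have hLcard : k / 2 ≤ L.card := by
    have := light_card A hA R hRpos (b := k / 2) (by
      rw [hRdef]
      nlinarith)
    linarith
  -- heavy vertices
  set H := univ.filter (fun v => δ * m < (deg A v : ℝ)) with hH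
  have hHcard : (H.card : ℝ) ≤ M := by
    have h2 : ∑ v ∈ H, δ * m ≤ ∑ v, (deg A v : ℝ) := by
      refine (sum_le_sum (g := fun v => (deg A v : ℝ)) fun v hv => ?_).trans
        (sum_le_sum_of_subset_of_nonneg (subset_univ _) fun v _ _ => Nat.cast_nonneg _)
      exact (mem_filter.1 hv).2.le
    rw [sum_const, nsmul_eq_mul] at h2
    have h3 : (∑ v, (deg A v : ℝ)) = 3 * m := by rw [hmdef]; exact_mod_cast sum_deg A hA
    rw [h3] at h2
    have h4 : (H.card : ℝ) * δ ≤ 3 := by
      have : ((H.card : ℝ) * δ) * m ≤ 3 * m := by linarith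
      exact le_of_mul_le_mul_right this hmpos
    have h5 : (H.card : ℝ) ≤ 3 * (10 ^ 8 * C ^ 4) := by
      rw [hδ] at h4
      have h6 : (0 : ℝ) < 10 ^ 8 * C ^ 4 := by positivity
      rw [mul_one_div, div_le_iff₀ h6] at h4
      exact h4
    linarith
  have hnotH : ∀ v ∉ H, (deg A v : ℝ) ≤ δ * m := by
    intro v hv
    by_contra h
    exact hv (mem_filter.2 ⟨mem_univ _, not_le.1 h⟩)
  have hgr : 2 * M + 2 * M * (3 * R + 1) < k / 2 := by
    rw [hRdef, ← hr2]
    have e1 : (4800 * M * C) * r ≤ r * r := mul_le_mul_of_nonneg_right hrbig (by linarith)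
    have e2 : M * C ≥ 1 := hMC
    have e3 : 2 * (M : ℝ) + 2 * M * (3 * (6 * C * r) + 1) = 4 * M + 36 * (M * C * r) := by ring
    have e4 : (M : ℝ) ≤ M * C * r := by
      have : (1 : ℝ) ≤ C * r := by nlinarith
      nlinarith
    have e5 : 0 < M * C * r := by positivity
    rw [e3]
    nlinarith
  -- first greedy choice
  obtain ⟨W, hWL, _, hWH, hWc, hWgood⟩ := greedy A hA L R hRpos.le hLdeg ∅ H (empty_subset _)
    (fun u hu => absurd hu (notMem_empty _)) H.card (by
      simp only [card_empty, Nat.cast_zero, zero_add]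
      have : (H.card : ℝ) * (3 * R + 1) ≤ M * (3 * R + 1) :=
        mul_le_mul_of_nonneg_right hHcard (by positivity)
      have h2 : 0 ≤ M * (3 * R + 1) := by positivity
      linarith)
  rw [empty_union] at hWgood
  obtain ⟨w, hwinj, hwimg⟩ := exists_bij H W hWc.symm
  have hwW : ∀ h ∈ H, w h ∈ W := fun h hh => hwimg ▸ mem_image_of_mem w hh
  -- the exceptional vertices
  set X := univ.filter (fun x => x ∉ H ∧ x ∉ W ∧
    k ^ 2 / 400 < ∑ h ∈ H, (cod A x (w h) * deg A h : ℝ)) with hX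
  have hXcard : (X.card : ℝ) ≤ 21600 * C ^ 2 := by
    have h1 : ∑ x ∈ X, k ^ 2 / 400 ≤ ∑ x, ∑ h ∈ H, (cod A x (w h) * deg A h : ℝ) := by
      refine (sum_le_sum (g := fun x => ∑ h ∈ H, (cod A x (w h) * deg A h : ℝ)) fun x hx => ?_).trans
        (sum_le_sum_of_subset_of_nonneg (subset_univ _) fun x _ _ =>
          sum_nonneg fun h _ => by positivity)
      exact (mem_filter.1 hx).2.2.2.le
    rw [sum_const, nsmul_eq_mul, sum_comm] at h1
    have h2 : ∑ h ∈ H, ∑ x, (cod A x (w h) * deg A h : ℝ) ≤ ∑ h ∈ H, (3 * R) * deg A h := by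
      apply sum_le_sum
      intro h hh
      rw [← sum_mul]
      apply mul_le_mul_of_nonneg_right _ (Nat.cast_nonneg _)
      have h3 : (∑ x, (cod A x (w h) : ℝ)) = 3 * deg A (w h) := by exact_mod_cast sum_cod A hA (w h)
      rw [h3]
      linarith [hLdeg _ (hWL (hwW h hh))]
    have h3 : ∑ h ∈ H, (3 * R) * (deg A h : ℝ) ≤ (3 * R) * (3 * m) := by
      rw [← mul_sum]
      apply mul_le_mul_of_nonneg_left _ (by positivity)
      have h4 : (∑ v, (deg A v : ℝ)) = 3 * m := by rw [hmdef]; exact_mod_cast sum_deg A hA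
      rw [← h4]
      exact sum_le_sum_of_subset_of_nonneg (subset_univ _) fun v _ _ => Nat.cast_nonneg _
    have h5 : (3 * R) * (3 * m) ≤ 54 * C ^ 2 * k ^ 2 := by
      have e1 : (3 * R) * (3 * m) = 54 * C * (r * m) := by rw [hRdef]; ring
      have e2 : r * m ≤ C * k ^ 2 := by
        calc r * m ≤ r * (C * k * r) := mul_le_mul_of_nonneg_left hm (by linarith)
          _ = C * k * (r * r) := by ring
          _ = C * k ^ 2 := by rw [hr2]; ring
      rw [e1]
      calc 54 * C * (r * m) ≤ 54 * C * (C * k ^ 2) := mul_le_mul_of_nonneg_left e2 (by positivity)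
        _ = 54 * C ^ 2 * k ^ 2 := by ring
    have h6 : (X.card : ℝ) * (k ^ 2 / 400) ≤ (21600 * C ^ 2) * (k ^ 2 / 400) := by
      linarith
    exact le_of_mul_le_mul_right h6 (by positivity)
  have hXM : (X.card : ℝ) ≤ M := by
    have : C ^ 2 ≤ C ^ 4 := pow_le_pow_right₀ hC (by norm_num)
    linarith
  have hXH : Disjoint H X := by
    rw [disjoint_left]
    intro v h1 h2
    exact (mem_filter.1 h2).2.1 h1
  -- second greedy choice
  have hWcard : (W.card : ℝ) ≤ M := by rw [hWc]; exact hHcard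
  obtain ⟨Z, hZL, hZW, hZB, hZc, hgood⟩ := greedy A hA L R hRpos.le hLdeg W (H ∪ X) hWL hWgood
    X.card (by
      have e1 : ((H ∪ X).card : ℝ) ≤ 2 * M := by
        have : ((H ∪ X).card : ℝ) ≤ H.card + X.card := by exact_mod_cast card_union_le _ _
        linarith
      have e2 : ((W.card : ℝ) + X.card) * (3 * R + 1) ≤ (2 * M) * (3 * R + 1) :=
        mul_le_mul_of_nonneg_right (by linarith) (by positivity)
      linarith)
  obtain ⟨z, hzinj, hzimg⟩ := exists_bij X Z hZc.symm
  have hzZ : ∀ h ∈ X, z h ∈ Z := fun h hh => hzimg ▸ mem_image_of_mem z hh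
  set F := H ∪ X with hF
  set P := W ∪ Z with hP
  set φ : V → V := fun v => if v ∈ H then w v else z v with hφ
  have φH : ∀ v ∈ H, φ v = w v := fun v hv => by simp [hφ, hv]
  have φX : ∀ v ∈ X, φ v = z v := fun v hv => by
    have : v ∉ H := fun h => (disjoint_left.1 hXH) h hv
    simp [hφ, this]
  have hφP : ∀ v ∈ F, φ v ∈ P := by
    intro v hv
    rcases mem_union.1 hv with h | h
    · rw [φH v h]; exact mem_union.2 (Or.inl (hwW v h))
    · rw [φX v h]; exact mem_union.2 (Or.inr (hzZ v h))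
  have hφinj : Set.InjOn φ F := by
    intro u hu v hv huv
    rw [mem_coe] at hu hv
    rcases mem_union.1 hu with h1 | h1
    · rcases mem_union.1 hv with h2 | h2
      · rw [φH u h1, φH v h2] at huv
        exact hwinj h1 h2 huv
      · rw [φH u h1, φX v h2] at huv
        exfalso
        exact (disjoint_left.1 hZW) (hzZ v h2) (huv ▸ hwW u h1)
    · rcases mem_union.1 hv with h2 | h2
      · rw [φX u h1, φH v h2] at huv
        exfalso
        exact (disjoint_left.1 hZW) (hzZ u h1) (huv ▸ hwW v h2)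
      · rw [φX u h1, φX v h2] at huv
        exact hzinj h1 h2 huv
  have hFP : Disjoint F P := by
    rw [disjoint_left]
    intro v hv hv2
    rcases mem_union.1 hv2 with h | h
    · rcases mem_union.1 hv with h3 | h3
      · exact (disjoint_left.1 hWH) h h3
      · exact (mem_filter.1 h3).2.2.1 h
    · exact (disjoint_left.1 hZB) h hv
  obtain ⟨τ, s1, s2, s3, s4⟩ := exists_involution F φ hφinj
    (fun v hv h => (disjoint_left.1 hFP) h (hφP v hv))
  have hPimg : F.image φ = P := by
    apply eq_of_subset_of_card_le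
    · intro v hv
      obtain ⟨u, hu, rfl⟩ := mem_image.1 hv
      exact hφP u hu
    · rw [card_image_of_injOn hφinj, hF, card_union_of_disjoint hXH, hP,
        card_union_of_disjoint hZW.symm, hWc, hZc]
  have hPR : ∀ v ∈ P, (deg A v : ℝ) ≤ R := by
    intro v hv
    rcases mem_union.1 hv with h | h
    · exact hLdeg v (hWL h)
    · exact hLdeg v (hZL h)
  have hFc : (F.card : ℝ) ≤ 2 * M := by
    have : (F.card : ℝ) ≤ H.card + X.card := by exact_mod_cast card_union_le _ _
    linarith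
  have hPc : (P.card : ℝ) ≤ 2 * M := by
    rw [← hPimg, card_image_of_injOn hφinj]; exact hFc
  have hQc : (F ∪ P).card ≤ 4 * M := by
    have : (((F ∪ P).card : ℕ) : ℝ) ≤ ((4 * M : ℕ) : ℝ) := by
      have h1 : ((F ∪ P).card : ℝ) ≤ F.card + P.card := by exact_mod_cast card_union_le _ _
      push_cast
      linarith
    exact_mod_cast this
  have τF : ∀ v ∈ F, τ v ∈ P := fun v hv => by rw [s1 v hv]; exact hφP v hv
  have τP : ∀ v ∈ P, τ v ∈ F := by
    intro v hv
    rw [← hPimg] at hv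
    obtain ⟨u, hu, rfl⟩ := mem_image.1 hv
    rw [s2 u hu]; exact hu
  refine finish A hA F P τ τF τP ?_ s4 hgood R hPR ?_
  · intro v hv
    apply s3 v (fun h => hv (mem_union.2 (Or.inl h)))
    rw [hPimg]
    exact fun h => hv (mem_union.2 (Or.inr h))
  · intro x hx
    have hxF : x ∉ F := fun h => hx (mem_union.2 (Or.inl h))
    have hxP : x ∉ P := fun h => hx (mem_union.2 (Or.inr h))
    have hxH : x ∉ H := fun h => hxF (mem_union.2 (Or.inl h))
    have hxX : x ∉ X := fun h => hxF (mem_union.2 (Or.inr h))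
    have hxW : x ∉ W := fun h => hxP (mem_union.2 (Or.inl h))
    -- binomial coefficients
    have mono : Fintype.card V - 4 * M ≤ Fintype.card V - (F ∪ P).card := by omega
    have c3 : k ^ 3 / 12 ≤ (((Fintype.card V - (F ∪ P).card).choose 3 : ℕ) : ℝ) :=
      k1.trans (by exact_mod_cast Nat.choose_le_choose 3 mono)
    have c2 : k ^ 2 / 4 ≤ (((Fintype.card V - (F ∪ P).card).choose 2 : ℕ) : ℝ) :=
      k2.trans (by exact_mod_cast Nat.choose_le_choose 2 mono)
    have c1 : k / 2 ≤ (((Fintype.card V - (F ∪ P).card).choose 1 : ℕ) : ℝ) :=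
      k3.trans (by exact_mod_cast Nat.choose_le_choose 1 mono)
    have i3 := inv_anti₀ (by positivity : (0 : ℝ) < k ^ 3 / 12) c3
    have i2 := inv_anti₀ (by positivity : (0 : ℝ) < k ^ 2 / 4) c2
    have i1 := inv_anti₀ (by positivity : (0 : ℝ) < k / 2) c1
    -- the three sums
    have b0 : (deg A x * m : ℝ) ≤ δ * C ^ 2 * k ^ 3 := by
      have e1 : (deg A x * m : ℝ) ≤ (δ * m) * m := mul_le_mul_of_nonneg_right (hnotH x hxH) hmpos.le
      have e2 : m * m ≤ (C * k * r) * (C * k * r) := mul_le_mul hm hm hmpos.le (by positivity)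
      have e3 : (C * k * r) * (C * k * r) = C ^ 2 * k ^ 3 := by
        calc (C * k * r) * (C * k * r) = C ^ 2 * k ^ 2 * (r * r) := by ring
          _ = C ^ 2 * k ^ 3 := by rw [hr2]; ring
      calc (deg A x * m : ℝ) ≤ δ * (m * m) := by linarith
        _ ≤ δ * (C ^ 2 * k ^ 3) := mul_le_mul_of_nonneg_left (by linarith) hδpos.le
        _ = δ * C ^ 2 * k ^ 3 := by ring
    have bH : ∑ q ∈ H, (cod A x (τ q) * deg A q : ℝ) ≤ k ^ 2 / 400 := by
      have e1 : ∑ q ∈ H, (cod A x (τ q) * deg A q : ℝ) = ∑ q ∈ H, (cod A x (w q) * deg A q : ℝ) := by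
        apply sum_congr rfl
        intro q hq
        rw [s1 q (mem_union.2 (Or.inl hq)), φH q hq]
      rw [e1]
      by_contra h
      exact hxX (mem_filter.2 ⟨mem_univ _, hxH, hxW, not_le.1 h⟩)
    have bX : ∑ q ∈ X, (cod A x (τ q) * deg A q : ℝ) ≤ 129600 * δ * C ^ 4 * k ^ 2 := by
      have e1 : ∀ q ∈ X, (cod A x (τ q) * deg A q : ℝ) ≤ R * (δ * m) := by
        intro q hq
        have hqH : q ∉ H := fun h => (disjoint_left.1 hXH) h hq
        have e2 : (cod A x (τ q) : ℝ) ≤ R := by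
          have e3 : (cod A x (τ q) : ℝ) ≤ deg A (τ q) := by exact_mod_cast cod_le_deg_right A x (τ q)
          exact e3.trans (hPR _ (τF q (mem_union.2 (Or.inr hq))))
        exact mul_le_mul e2 (hnotH q hqH) (Nat.cast_nonneg _) hRpos.le
      refine (sum_le_sum e1).trans ?_
      rw [sum_const, nsmul_eq_mul]
      have e4 : R * (δ * m) ≤ 6 * δ * C ^ 2 * k ^ 2 := by
        have e2 : r * m ≤ C * k ^ 2 := by
          calc r * m ≤ r * (C * k * r) := mul_le_mul_of_nonneg_left hm (by linarith)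
            _ = C * k * (r * r) := by ring
            _ = C * k ^ 2 := by rw [hr2]; ring
        calc R * (δ * m) = 6 * C * δ * (r * m) := by rw [hRdef]; ring
          _ ≤ 6 * C * δ * (C * k ^ 2) := mul_le_mul_of_nonneg_left e2 (by positivity)
          _ = 6 * δ * C ^ 2 * k ^ 2 := by ring
      calc (X.card : ℝ) * (R * (δ * m)) ≤ (21600 * C ^ 2) * (6 * δ * C ^ 2 * k ^ 2) :=
            mul_le_mul hXcard e4 (by positivity) (by positivity)
        _ = 129600 * δ * C ^ 4 * k ^ 2 := by ring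
    have bP : ∑ q ∈ P, (cod A x (τ q) * deg A q : ℝ) ≤ 12 * M * C * k * r := by
      have e1 : ∀ q ∈ P, (cod A x (τ q) * deg A q : ℝ) ≤ k * R := by
        intro q hq
        have hne : x ≠ τ q := by
          intro h
          exact hxF (h ▸ τP q hq)
        have e2 : (cod A x (τ q) : ℝ) ≤ k := by
          rw [hk]; exact Nat.cast_le.2 (cod_le_card A hA hne)
        exact mul_le_mul e2 (hPR q hq) (Nat.cast_nonneg _) hk0
      refine (sum_le_sum e1).trans ?_
      rw [sum_const, nsmul_eq_mul]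
      calc (P.card : ℝ) * (k * R) ≤ (2 * M) * (k * R) :=
            mul_le_mul_of_nonneg_right hPc (by positivity)
        _ = 12 * M * C * k * r := by rw [hRdef]; ring
    have bsum : ∑ q ∈ F ∪ P, (cod A x (τ q) * deg A q : ℝ) ≤
        k ^ 2 / 400 + 129600 * δ * C ^ 4 * k ^ 2 + 12 * M * C * k * r := by
      rw [sum_union hFP, hF, sum_union hXH]
      exact add_le_add (add_le_add bH bX) bP
    have b2 : (P.card * F.card * R : ℝ) ≤ 24 * M ^ 2 * C * r := by
      calc (P.card * F.card * R : ℝ) ≤ ((2 * M) * (2 * M)) * R := by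
            apply mul_le_mul_of_nonneg_right _ hRpos.le
            exact mul_le_mul hPc hFc (Nat.cast_nonneg _) (by positivity)
        _ = 24 * M ^ 2 * C * r := by rw [hRdef]; ring
    have t0 : (deg A x * m : ℝ) * (((Fintype.card V - (F ∪ P).card).choose 3 : ℕ) : ℝ)⁻¹ ≤
        12 * δ * C ^ 2 := by
      calc _ ≤ (δ * C ^ 2 * k ^ 3) * (k ^ 3 / 12)⁻¹ :=
            mul_le_mul b0 i3 (by positivity) (by positivity)
        _ = 12 * δ * C ^ 2 := by field_simp
    have t1 : (∑ q ∈ F ∪ P, (cod A x (τ q) * deg A q : ℝ)) *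
        (((Fintype.card V - (F ∪ P).card).choose 2 : ℕ) : ℝ)⁻¹ ≤
        1 / 100 + 518400 * δ * C ^ 4 + 48 * M * C / r := by
      calc _ ≤ (k ^ 2 / 400 + 129600 * δ * C ^ 4 * k ^ 2 + 12 * M * C * k * r) * (k ^ 2 / 4)⁻¹ :=
            mul_le_mul bsum i2 (by positivity) (by positivity)
        _ = 1 / 100 + 518400 * δ * C ^ 4 + 48 * M * C * (r / k) := by field_simp; ring
        _ = 1 / 100 + 518400 * δ * C ^ 4 + 48 * M * C / r := by
            have : r / k = 1 / r := by
              rw [← hr2]; field_simp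
            rw [this]; ring
    have t2 : (P.card * F.card * R : ℝ) * (((Fintype.card V - (F ∪ P).card).choose 1 : ℕ) : ℝ)⁻¹ ≤
        48 * M ^ 2 * C / r := by
      calc _ ≤ (24 * M ^ 2 * C * r) * (k / 2)⁻¹ :=
            mul_le_mul b2 i1 (by positivity) (by positivity)
        _ = 48 * M ^ 2 * C * (r / k) := by field_simp; ring
        _ = 48 * M ^ 2 * C / r := by
            have : r / k = 1 / r := by
              rw [← hr2]; field_simp
            rw [this]; ring
    have t3 : 48 * M * C / r + 48 * M ^ 2 * C / r ≤ 1 / 100 := by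
      rw [← add_div, div_le_iff₀ (by linarith)]
      linarith
    have t4 : 12 * δ * C ^ 2 ≤ 1 / 1000 := by
      have e1 : 12 * δ * C ^ 2 = 12 / (10 ^ 8 * C ^ 2) := by
        rw [hδ]; field_simp
      rw [e1, div_le_iff₀ (by positivity)]
      nlinarith
    have t5 : 518400 * δ * C ^ 4 = 518400 / 10 ^ 8 := by
      rw [hδ]; field_simp
    linarith

end Pool.Agent.R767.SS
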