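import Mathlib

/-!
Definitions for the main statement and the group theory of `Sym(k)` on three-element subsets.
-/

set_option autoImplicit false

open Finset MulAction
open scoped Pointwise

namespace Pool.Agent.R767.SS

section defs

variable {Ω : Type} [DecidableEq Ω]

/-- `A` is self-separable for the permutation group `G`: `A ∩ A^g = ∅` for some `g ∈ G`. -/
def SelfSep (G : Subgroup (Equiv.Perm Ω)) (A : Finset Ω) : Prop :=
  ∃ g ∈ G, Disjoint A (A.image g)

/-- `m(G)`: the smallest size of a non-self-separable set. -/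
noncomputable def mPar (G : Subgroup (Equiv.Perm Ω)) : ℕ :=
  sInf {s : ℕ | ∃ A : Finset Ω, A.card = s ∧ ¬ SelfSep G A}

theorem lt_mPar [Fintype Ω] [Nonempty Ω] (G : Subgroup (Equiv.Perm Ω)) (c : ℝ)
    (h : ∀ A : Finset Ω, (A.card : ℝ) ≤ c → SelfSep G A) : c < mPar G := by
  have hne : {s : ℕ | ∃ A : Finset Ω, A.card = s ∧ ¬ SelfSep G A}.Nonempty := by
    refine ⟨_, univ, rfl, ?_⟩
    rintro ⟨g, _, hg⟩
    have h1 : (univ : Finset Ω).image g = univ := by
      rw [image_univ_of_surjective g.surjective]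
    rw [h1, disjoint_self] at hg
    exact univ_nonempty.ne_empty hg
  obtain ⟨A, hA1, hA2⟩ := Nat.sInf_mem hne
  by_contra hcon
  apply hA2
  apply h
  have : (A.card : ℝ) = mPar G := by exact_mod_cast hA1
  rw [this]
  exact not_lt.1 hcon

end defs

/-- three-element subsets of `Fin k` -/
abbrev Om (k : ℕ) : Type := Set.powersetCard (Fin k) 3

noncomputable instance (k : ℕ) : Fintype (Om k) := Fintype.ofFinite _

/-- the permutation group induced by `Sym(k)` on three-element subsets -/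
noncomputable def Gk (k : ℕ) : Subgroup (Equiv.Perm (Om k)) :=
  (MulAction.toPermHom (Equiv.Perm (Fin k)) (Om k)).range

theorem card_Om (k : ℕ) : Fintype.card (Om k) = k.choose 3 := by
  rw [← Nat.card_eq_fintype_card, Set.powersetCard.card, Nat.card_eq_fintype_card, Fintype.card_fin]

theorem prim (k : ℕ) (hk : 6 < k) : IsPreprimitive (Gk k) (Om k) := by
  have h1 : IsPreprimitive (Equiv.Perm (Fin k)) (Om k) :=
    Set.powersetCard.isPreprimitive_perm (by norm_num)
      (by rw [Nat.card_eq_fintype_card, Fintype.card_fin]; omega)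
      (by rw [Nat.card_eq_fintype_card, Fintype.card_fin]; omega)
  let φ : Equiv.Perm (Fin k) → Gk k :=
    fun σ => ⟨MulAction.toPermHom (Equiv.Perm (Fin k)) (Om k) σ, ⟨σ, rfl⟩⟩
  let f : Om k →ₑ[φ] Om k :=
    { toFun := id
      map_smul' := fun _ _ => rfl }
  exact IsPreprimitive.of_surjective (f := f) Function.surjective_id

/-- a three-cycle not in the group -/
theorem exists_cycle (k : ℕ) (hk : 6 < k) :
    ∃ c : Equiv.Perm (Om k), c.IsThreeCycle ∧ c ∉ Gk k := by
  let p0 : Fin k := ⟨0, by omega⟩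
  let p1 : Fin k := ⟨1, by omega⟩
  let p2 : Fin k := ⟨2, by omega⟩
  let p3 : Fin k := ⟨3, by omega⟩
  let p4 : Fin k := ⟨4, by omega⟩
  let p5 : Fin k := ⟨5, by omega⟩
  have hne : ∀ i j : ℕ, ∀ (hi : i < k) (hj : j < k), i ≠ j → (⟨i, hi⟩ : Fin k) ≠ ⟨j, hj⟩ := by
    intro i j hi hj hij h
    exact hij (congrArg Fin.val h)
  let w1 : Om k := ⟨{p0, p1, p2}, by
    rw [Set.powersetCard.mem_iff, card_eq_three]
    exact ⟨p0, p1, p2, hne _ _ _ _ (by norm_num), hne _ _ _ _ (by norm_num),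
      hne _ _ _ _ (by norm_num), rfl⟩⟩
  let w2 : Om k := ⟨{p0, p1, p3}, by
    rw [Set.powersetCard.mem_iff, card_eq_three]
    exact ⟨p0, p1, p3, hne _ _ _ _ (by norm_num), hne _ _ _ _ (by norm_num),
      hne _ _ _ _ (by norm_num), rfl⟩⟩
  let w3 : Om k := ⟨{p3, p4, p5}, by
    rw [Set.powersetCard.mem_iff, card_eq_three]
    exact ⟨p3, p4, p5, hne _ _ _ _ (by norm_num), hne _ _ _ _ (by norm_num),
      hne _ _ _ _ (by norm_num), rfl⟩⟩
  have h12 : w1 ≠ w2 := by
    intro h
    have h1 : p2 ∈ ({p0, p1, p2} : Finset (Fin k)) := by simp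
    have h2 : ({p0, p1, p2} : Finset (Fin k)) = {p0, p1, p3} := congrArg Subtype.val h
    rw [h2] at h1
    simp only [mem_insert, mem_singleton] at h1
    rcases h1 with h1 | h1 | h1
    · exact hne _ _ _ _ (by norm_num) h1
    · exact hne _ _ _ _ (by norm_num) h1
    · exact hne _ _ _ _ (by norm_num) h1
  have h0n : p0 ∉ ({p3, p4, p5} : Finset (Fin k)) := by
    intro h1
    simp only [mem_insert, mem_singleton] at h1
    rcases h1 with h1 | h1 | h1
    · exact hne _ _ _ _ (by norm_num) h1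
    · exact hne _ _ _ _ (by norm_num) h1
    · exact hne _ _ _ _ (by norm_num) h1
  have h13 : w1 ≠ w3 := by
    intro h
    have h1 : p0 ∈ ({p0, p1, p2} : Finset (Fin k)) := by simp
    have h2 : ({p0, p1, p2} : Finset (Fin k)) = {p3, p4, p5} := congrArg Subtype.val h
    rw [h2] at h1
    exact h0n h1
  have h23 : w2 ≠ w3 := by
    intro h
    have h1 : p0 ∈ ({p0, p1, p3} : Finset (Fin k)) := by simp
    have h2 : ({p0, p1, p3} : Finset (Fin k)) = {p3, p4, p5} := congrArg Subtype.val h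
    rw [h2] at h1
    exact h0n h1
  classical
  refine ⟨Equiv.swap w1 w2 * Equiv.swap w1 w3,
    Equiv.Perm.isThreeCycle_swap_mul_swap_same h12 h13 h23, ?_⟩
  rintro ⟨π, hπ⟩
  have e1 : π • w1 = w3 := by
    have h1 := congrArg (fun c : Equiv.Perm (Om k) => c w1) hπ
    have h2 : (Equiv.swap w1 w2 * Equiv.swap w1 w3) w1 = w3 := by
      rw [Equiv.Perm.mul_apply, Equiv.swap_apply_left, Equiv.swap_apply_of_ne_of_ne h13.symm h23.symm]
    exact h1.trans h2
  have e2 : π • w2 = w1 := by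
    have h1 := congrArg (fun c : Equiv.Perm (Om k) => c w2) hπ
    have h2 : (Equiv.swap w1 w2 * Equiv.swap w1 w3) w2 = w1 := by
      rw [Equiv.Perm.mul_apply, Equiv.swap_apply_of_ne_of_ne h12.symm h23, Equiv.swap_apply_right]
    exact h1.trans h2
  have e3 : π • (w1 : Finset (Fin k)) = (w3 : Finset (Fin k)) := by
    rw [← Set.powersetCard.coe_smul, e1]
  have e4 : π • (w2 : Finset (Fin k)) = (w1 : Finset (Fin k)) := by
    rw [← Set.powersetCard.coe_smul, e2]
  have f1 : π p0 ∈ ({p3, p4, p5} : Finset (Fin k)) := by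
    have : π • p0 ∈ π • (w1 : Finset (Fin k)) := Finset.smul_mem_smul_finset (by simp [w1])
    rw [e3] at this
    exact this
  have f2 : π p0 ∈ ({p0, p1, p2} : Finset (Fin k)) := by
    have : π • p0 ∈ π • (w2 : Finset (Fin k)) := Finset.smul_mem_smul_finset (by simp [w2])
    rw [e4] at this
    exact this
  simp only [mem_insert, mem_singleton] at f1 f2
  rcases f1 with f1 | f1 | f1 <;> rcases f2 with f2 | f2 | f2 <;>
    exact hne _ _ _ _ (by norm_num) (f1.symm.trans f2)

theorem ne_top (k : ℕ) (hk : 6 < k) : Gk k ≠ ⊤ := by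
  obtain ⟨c, _, hc2⟩ := exists_cycle k hk
  intro h
  rw [h] at hc2
  exact hc2 (Subgroup.mem_top c)

theorem ne_alt (k : ℕ) (hk : 6 < k) : Gk k ≠ alternatingGroup (Om k) := by
  obtain ⟨c, hc1, hc2⟩ := exists_cycle k hk
  intro h
  rw [h] at hc2
  exact hc2 hc1.mem_alternatingGroup

/-- transfer from families of triples -/
theorem selfSep_of (k : ℕ) (A : Finset (Om k))
    (h : ∀ B : Finset (Finset (Fin k)), (∀ f ∈ B, f.card = 3) → B.card = A.card →
      ∃ π : Equiv.Perm (Fin k), ∀ f ∈ B, f.image π ∉ B) : SelfSep (Gk k) A := by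
  obtain ⟨π, hπ⟩ := h (A.map ⟨Subtype.val, Subtype.val_injective⟩) (by
    intro f hf
    rw [mem_map] at hf
    obtain ⟨w, _, rfl⟩ := hf
    exact Set.powersetCard.card_eq w) (card_map _)
  refine ⟨MulAction.toPermHom (Equiv.Perm (Fin k)) (Om k) π, ⟨π, rfl⟩, ?_⟩
  rw [disjoint_left]
  intro w hw hw2
  obtain ⟨u, hu, hu2⟩ := mem_image.1 hw2
  have h1 : π • u = w := hu2
  have h2 : (u : Finset (Fin k)).image π = (w : Finset (Fin k)) := by
    rw [← h1, Set.powersetCard.coe_smul]
    rfl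
  apply hπ (u : Finset (Fin k)) (mem_map.2 ⟨u, hu, rfl⟩)
  rw [h2]
  exact mem_map.2 ⟨w, hw, rfl⟩

end Pool.Agent.R767.SS
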