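import Mathlib
import Pool.Agent.R767.SS.Core
import Pool.Agent.R767.SS.Grp

set_option autoImplicit false

open Finset MulAction

namespace Pool.Agent.R767.SS

theorem choose_low3 (j : ℕ) : ((j : ℝ) - 2) ^ 3 / 6 ≤ ((j.choose 3 : ℕ) : ℝ) ∨ (j : ℝ) < 2 := by
  by_cases hj : 2 ≤ j
  · left
    have h1 := Nat.pow_sub_le_descFactorial j 3
    rw [Nat.descFactorial_eq_factorial_mul_choose] at h1
    have h2 : ((j + 1 - 3 : ℕ) : ℝ) = (j : ℝ) - 2 := by
      have : j + 1 - 3 = j - 2 := by omega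
      rw [this, Nat.cast_sub hj]; norm_num
    have h3 : (((j + 1 - 3) ^ 3 : ℕ) : ℝ) ≤ ((Nat.factorial 3 * j.choose 3 : ℕ) : ℝ) := by
      exact_mod_cast h1
    rw [Nat.cast_pow, h2, Nat.cast_mul] at h3
    have h4 : ((Nat.factorial 3 : ℕ) : ℝ) = 6 := by norm_num [Nat.factorial]
    rw [h4] at h3
    linarith
  · right
    have : j < 2 := by omega
    exact_mod_cast this

theorem choose_low2 (j : ℕ) : ((j : ℝ) - 1) ^ 2 / 2 ≤ ((j.choose 2 : ℕ) : ℝ) ∨ (j : ℝ) < 1 := by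
  by_cases hj : 1 ≤ j
  · left
    have h1 := Nat.pow_sub_le_descFactorial j 2
    rw [Nat.descFactorial_eq_factorial_mul_choose] at h1
    have h2 : ((j + 1 - 2 : ℕ) : ℝ) = (j : ℝ) - 1 := by
      have : j + 1 - 2 = j - 1 := by omega
      rw [this, Nat.cast_sub hj]; norm_num
    have h3 : (((j + 1 - 2) ^ 2 : ℕ) : ℝ) ≤ ((Nat.factorial 2 * j.choose 2 : ℕ) : ℝ) := by
      exact_mod_cast h1
    rw [Nat.cast_pow, h2, Nat.cast_mul] at h3
    have h4 : ((Nat.factorial 2 : ℕ) : ℝ) = 2 := by norm_num [Nat.factorial]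
    rw [h4] at h3
    linarith
  · right
    have : j < 1 := by omega
    exact_mod_cast this

theorem large (C : ℝ) (N : ℕ) : ∃ k : ℕ, N ≤ k ∧ 6 < k ∧
    C * √(Fintype.card (Om k)) < mPar (Gk k) := by
  set C' : ℝ := max C 1 with hC'
  have hC1 : 1 ≤ C' := le_max_right _ _
  set M : ℕ := ⌈3 * 10 ^ 8 * C' ^ 4⌉₊ with hMdef
  have hM : 3 * 10 ^ 8 * C' ^ 4 ≤ M := Nat.le_ceil _
  set T : ℝ := 100 * (48 * M * C' + 48 * M ^ 2 * C') with hT
  have hT0 : 0 ≤ T := by positivity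
  set k : ℕ := N + 20 * M + 10 + ⌈T ^ 2⌉₊ with hk
  have hkT : T ^ 2 ≤ (k : ℝ) := by
    have h1 : T ^ 2 ≤ (⌈T ^ 2⌉₊ : ℝ) := Nat.le_ceil _
    have h2 : (⌈T ^ 2⌉₊ : ℝ) ≤ k := by
      have : ⌈T ^ 2⌉₊ ≤ k := by omega
      exact_mod_cast this
    linarith
  have hkM : 20 * (M : ℝ) + 10 ≤ k := by
    have : 20 * M + 10 ≤ k := by omega
    exact_mod_cast this
  have hk0 : (0 : ℝ) ≤ k := Nat.cast_nonneg _
  have hM0 : (0 : ℝ) ≤ M := Nat.cast_nonneg _
  have hj : ((k - 4 * M : ℕ) : ℝ) = k - 4 * M := by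
    have : 4 * M ≤ k := by omega
    rw [Nat.cast_sub this]; push_cast; ring
  have hne : Nonempty (Om k) := by
    rw [← Fintype.card_pos_iff, card_Om]
    exact Nat.choose_pos (by omega)
  refine ⟨k, by omega, by omega, ?_⟩
  refine lt_of_le_of_lt (mul_le_mul_of_nonneg_right (le_max_left C 1) (Real.sqrt_nonneg _))
    (lt_mPar _ _ fun A hA => ?_)
  rw [card_Om] at hA
  have hcard : (A.card : ℝ) ≤ C' * k * √k := by
    have h1 : √((k.choose 3 : ℕ) : ℝ) ≤ k * √k := by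
      rw [Real.sqrt_le_left (by positivity), mul_pow, Real.sq_sqrt hk0]
      have : ((k.choose 3 : ℕ) : ℝ) ≤ (k : ℝ) ^ 3 := by exact_mod_cast Nat.choose_le_pow k 3
      linarith [this]
    calc (A.card : ℝ) ≤ C' * √((k.choose 3 : ℕ) : ℝ) := hA
      _ ≤ C' * (k * √k) := mul_le_mul_of_nonneg_left h1 (by linarith)
      _ = C' * k * √k := by ring
  apply selfSep_of
  intro B hB hBA
  apply core B hB C' hC1 M hM
  · rw [hBA, Fintype.card_fin]; exact hcard
  · rw [Fintype.card_fin]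
    rcases choose_low3 (k - 4 * M) with h | h
    · refine le_trans ?_ h
      rw [hj]
      have h1 : (4 / 5 : ℝ) * k ≤ k - 4 * M - 2 := by linarith
      have h2 : ((4 / 5 : ℝ) * k) ^ 3 ≤ (k - 4 * M - 2) ^ 3 :=
        pow_le_pow_left₀ (by positivity) h1 3
      have h3 : 0 ≤ (k : ℝ) ^ 3 := by positivity
      have h4 : ((4 / 5 : ℝ) * k) ^ 3 = 64 / 125 * (k : ℝ) ^ 3 := by ring
      linarith
    · rw [hj] at h
      exfalso; linarith
  · rw [Fintype.card_fin]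
    rcases choose_low2 (k - 4 * M) with h | h
    · refine le_trans ?_ h
      rw [hj]
      have h1 : (4 / 5 : ℝ) * k ≤ k - 4 * M - 1 := by linarith
      have h2 : ((4 / 5 : ℝ) * k) ^ 2 ≤ (k - 4 * M - 1) ^ 2 :=
        pow_le_pow_left₀ (by positivity) h1 2
      have h3 : 0 ≤ (k : ℝ) ^ 2 := by positivity
      have h4 : ((4 / 5 : ℝ) * k) ^ 2 = 16 / 25 * (k : ℝ) ^ 2 := by ring
      linarith
    · rw [hj] at h
      exfalso; linarith
  · rw [Fintype.card_fin, Nat.choose_one_right, hj]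
    linarith
  · rw [Fintype.card_fin]
    exact Real.le_sqrt_of_sq_le hkT

/-- the negated form of the question -/
theorem main (C : ℝ) (N : ℕ) : ∃ (Ω : Type) (_ : Fintype Ω) (_ : DecidableEq Ω)
    (G : Subgroup (Equiv.Perm Ω)), N ≤ Fintype.card Ω ∧ IsPreprimitive G Ω ∧ G ≠ ⊤ ∧
      G ≠ alternatingGroup Ω ∧ C * √(Fintype.card Ω) < mPar G := by
  obtain ⟨k, h1, h2, h3⟩ := large C N
  refine ⟨Om k, inferInstance, inferInstance, Gk k, ?_, prim k h2, ne_top k h2, ne_alt k h2, h3⟩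
  rw [card_Om]
  refine h1.trans ?_
  have h4 : ∀ j : ℕ, 5 ≤ j → j ≤ j.choose 3 := by
    intro j hj
    induction j, hj using Nat.le_induction with
    | base => decide
    | succ j hj ih =>
      have h5 : (j + 1).choose 3 = j.choose 2 + j.choose 3 := Nat.choose_succ_succ' j 2
      have h6 : 0 < j.choose 2 := Nat.choose_pos (by omega)
      omega
  exact h4 k (by omega)

end Pool.Agent.R767.SS
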